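import Mathlib

/-!
# Transitive actions on sets of prime power order, modulo the prime
-/

set_option autoImplicit false
set_option linter.unusedSectionVars false

open Finset MulAction

namespace Pool.Agent.H943.KS

section

variable {Γ Y : Type} [Group Γ] [Finite Γ] [MulAction Γ Y] [Fintype Y]

/-- A Sylow subgroup is transitive. -/
theorem sylow_tr {p a : ℕ} [hp : Fact p.Prime] (hcard : Fintype.card Y = p ^ a)
    (htr : ∀ x y : Y, ∃ γ : Γ, γ • x = y) (P : Sylow p Γ) (x y : Y) : ∃ γ ∈ P, γ • x = y := by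
  classical
  have h1 : (stabilizer Γ x).index = p ^ a := by
    rw [index_stabilizer, ← hcard, ← Nat.card_eq_fintype_card, ← Set.ncard_univ]
    congr 1
    refine Set.eq_univ_of_forall fun z => ?_
    obtain ⟨γ, hγ⟩ := htr x z
    exact ⟨γ, hγ⟩
  have h2 : (stabilizer Γ x).relIndex (P : Subgroup Γ) * (P : Subgroup Γ).index =
      ((stabilizer Γ x) ⊓ (P : Subgroup Γ)).index := by
    rw [← Subgroup.inf_relIndex_right, Subgroup.relIndex_mul_index inf_le_right]
  have h3 : p ^ a ∣ (stabilizer Γ x).relIndex (P : Subgroup Γ) * (P : Subgroup Γ).index := by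
    rw [h2, ← h1]
    exact Subgroup.index_dvd_of_le inf_le_left
  have h4 : ¬ p ∣ (P : Subgroup Γ).index := P.not_dvd_index
  have h5 : p ^ a ∣ (stabilizer Γ x).relIndex (P : Subgroup Γ) :=
    (Nat.Coprime.pow_left a ((Nat.Prime.coprime_iff_not_dvd hp.out).2 h4)).dvd_of_dvd_mul_right h3
  have h6 : (stabilizer Γ x).relIndex (P : Subgroup Γ) = (orbit (P : Subgroup Γ) x).ncard := by
    rw [← index_stabilizer]
    unfold Subgroup.relIndex
    congr 1
  have h7 : (orbit (P : Subgroup Γ) x).ncard ≤ p ^ a := by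
    rw [← hcard, ← Nat.card_eq_fintype_card, ← Set.ncard_univ]
    exact Set.ncard_le_ncard (Set.subset_univ _)
  have h8 : 0 < (orbit (P : Subgroup Γ) x).ncard := by
    rw [Set.ncard_pos]
    exact ⟨x, mem_orbit_self x⟩
  have h9 : (orbit (P : Subgroup Γ) x).ncard = p ^ a :=
    le_antisymm h7 (Nat.le_of_dvd h8 (by rw [← h6]; exact h5))
  have h10 : orbit (P : Subgroup Γ) x = Set.univ := by
    refine Set.eq_of_subset_of_ncard_le (Set.subset_univ _) ?_
    rw [Set.ncard_univ, Nat.card_eq_fintype_card, hcard, h9]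
  obtain ⟨γ, hγ⟩ : y ∈ orbit (P : Subgroup Γ) x := by
    rw [h10]
    trivial
  exact ⟨γ, γ.2, hγ⟩

/-- The annihilator of the translates of a function with sum prime to `p`. -/
theorem modp_fin {p a : ℕ} [hp : Fact p.Prime] (hcard : Fintype.card Y = p ^ a)
    (htr : ∀ x y : Y, ∃ γ : Γ, γ • x = y) (f : Y → ZMod p) (hf : ∑ x, f x ≠ 0)
    (y : Y → ZMod p) (hy : ∀ γ : Γ, ∑ x, f (γ • x) * y x = 0) : y = 0 := by
  classical
  by_contra hne
  let W : AddSubgroup (Y → ZMod p) :=
    { carrier := {y | ∀ γ : Γ, ∑ x, f (γ • x) * y x = 0}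
      add_mem' := fun {u v} hu hv γ => by
        simp only [Pi.add_apply, mul_add, sum_add_distrib, hu γ, hv γ, add_zero]
      zero_mem' := fun γ => by simp
      neg_mem' := fun {u} hu γ => by
        simp only [Pi.neg_apply, mul_neg, sum_neg_distrib, hu γ, neg_zero] }
  obtain ⟨P⟩ : Nonempty (Sylow p Γ) := inferInstance
  have hact : ∀ (γ : Γ) (u : Y → ZMod p), u ∈ W → (fun x => u (γ⁻¹ • x)) ∈ W := by
    intro γ u hu δ
    have h1 := hu (δ * γ)
    rw [← h1]
    refine Fintype.sum_equiv (MulAction.toPerm γ⁻¹) _ _ fun x => ?_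
    rw [MulAction.toPerm_apply, mul_smul, smul_inv_smul]
  let _ : MulAction (P : Subgroup Γ) W :=
    { smul := fun γ u => ⟨fun x => (u : Y → ZMod p) ((γ : Γ)⁻¹ • x), hact γ u u.2⟩
      one_smul := fun u => Subtype.ext (by
        funext x
        change (u : Y → ZMod p) (((1 : (P : Subgroup Γ)) : Γ)⁻¹ • x) = _
        rw [Subgroup.coe_one, inv_one, one_smul])
      mul_smul := fun γ δ u => Subtype.ext (by
        funext x
        change (u : Y → ZMod p) (((γ * δ : (P : Subgroup Γ)) : Γ)⁻¹ • x) =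
          (u : Y → ZMod p) ((δ : Γ)⁻¹ • (γ : Γ)⁻¹ • x)
        rw [Subgroup.coe_mul, mul_inv_rev, mul_smul]) }
  have hsm : ∀ (γ : (P : Subgroup Γ)) (u : W) (x : Y),
      ((γ • u : W) : Y → ZMod p) x = (u : Y → ZMod p) ((γ : Γ)⁻¹ • x) := fun _ _ _ => rfl
  have h0 : (0 : W) ∈ fixedPoints (P : Subgroup Γ) W := by
    intro γ
    apply Subtype.ext
    funext x
    rw [hsm]
    rfl
  have hWfin : Finite W := inferInstance
  have hd : p ∣ Nat.card W := by
    have h1 : Nat.card W ∣ Nat.card (Y → ZMod p) := AddSubgroup.card_addSubgroup_dvd_card W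
    rw [Nat.card_fun, Nat.card_zmod] at h1
    obtain ⟨k, -, hk⟩ := (Nat.dvd_prime_pow hp.out).1 h1
    rcases Nat.eq_zero_or_pos k with h2 | h2
    · exfalso
      rw [h2, pow_zero, Nat.card_eq_one_iff_unique] at hk
      have := hk.1
      exact hne (congrArg Subtype.val (Subsingleton.elim (⟨y, hy⟩ : W) 0))
    · rw [hk]
      exact dvd_pow_self p h2.ne'
  obtain ⟨u, hu, hu0⟩ := P.isPGroup'.exists_fixed_point_of_prime_dvd_card_of_fixed_point W hd h0
  have hconst : ∀ x z, (u : Y → ZMod p) x = (u : Y → ZMod p) z := by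
    intro x z
    obtain ⟨γ, hγP, hγ⟩ := sylow_tr hcard htr P x z
    have h1 := hu ⟨γ, hγP⟩
    have h2 := congrFun (congrArg Subtype.val h1) z
    rw [hsm] at h2
    rw [← h2, ← hγ]
    change _ = (u : Y → ZMod p) (γ⁻¹ • γ • x)
    rw [inv_smul_smul]
  have hsum := u.2 1
  simp only [one_smul] at hsum
  rcases isEmpty_or_nonempty Y with hE | ⟨⟨x0⟩⟩
  · exact hf (by simp)
  have h3 : ∑ x, f x * (u : Y → ZMod p) x = (∑ x, f x) * (u : Y → ZMod p) x0 := by
    rw [sum_mul]
    exact sum_congr rfl fun x _ => by rw [hconst x x0]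
  rw [h3] at hsum
  have h4 := (mul_eq_zero.1 hsum).resolve_left hf
  apply hu0
  apply Subtype.ext
  funext x
  change (0 : ZMod p) = _
  rw [hconst x x0, h4]

end

/-- The same for arbitrary groups. -/
theorem modp {G Y : Type} [Group G] [MulAction G Y] [Fintype Y]
    {p a : ℕ} [hp : Fact p.Prime] (hcard : Fintype.card Y = p ^ a)
    (htr : ∀ x y : Y, ∃ γ : G, γ • x = y) (f : Y → ZMod p) (hf : ∑ x, f x ≠ 0)
    (y : Y → ZMod p) (hy : ∀ γ : G, ∑ x, f (γ • x) * y x = 0) : y = 0 := by
  classical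
  let Γ := (MulAction.toPermHom G Y).range
  have : Finite Γ := inferInstance
  refine modp_fin (Γ := Γ) hcard ?_ f hf y ?_
  · intro x z
    obtain ⟨γ, hγ⟩ := htr x z
    exact ⟨⟨MulAction.toPermHom G Y γ, ⟨γ, rfl⟩⟩, hγ⟩
  · rintro ⟨_, ⟨γ, rfl⟩⟩
    exact hy γ

/-- The complex numbers. -/
theorem modp_complex {G Y : Type} [Group G] [MulAction G Y] [Fintype Y]
    {p a : ℕ} (hp : p.Prime) (hcard : Fintype.card Y = p ^ a)
    (htr : ∀ x y : Y, ∃ γ : G, γ • x = y) (f : Y → ℕ) (hf : ¬ p ∣ ∑ x, f x)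
    (y : Y → ℂ) (hy : ∀ γ : G, ∑ x, (f (γ • x) : ℂ) * y x = 0) : y = 0 := by
  classical
  have : Fact p.Prime := ⟨hp⟩
  -- the vectors mod `p` span
  let v : G → (Y → ZMod p) := fun γ x => (f (γ • x) : ZMod p)
  have hspan : Submodule.span (ZMod p) (Set.range v) = ⊤ := by
    by_contra hcon
    obtain ⟨φ, hφ0, hφ⟩ := Submodule.exists_le_ker_of_lt_top _ (lt_top_iff_ne_top.2 hcon)
    have h1 := modp (G := G) hcard htr (fun x => (f x : ZMod p)) (by
      rw [← Nat.cast_sum]
      intro h0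
      exact hf ((ZMod.natCast_eq_zero_iff _ _).1 h0)) (fun x => φ (Pi.single x 1)) (by
        intro γ
        have h2 : v γ ∈ LinearMap.ker φ := hφ (Submodule.subset_span ⟨γ, rfl⟩)
        rw [LinearMap.mem_ker] at h2
        rw [← h2]
        have h3 : v γ = ∑ x, v γ x • (Pi.single x (1 : ZMod p) : Y → ZMod p) := by
          funext z
          simp [Finset.sum_apply, Pi.single_apply]
        rw [h3, map_sum]
        refine sum_congr rfl fun x _ => ?_
        rw [map_smul, smul_eq_mul])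
    apply hφ0
    refine LinearMap.pi_ext' fun x => LinearMap.ext_ring ?_
    have h2 := congrFun h1 x
    simpa using h2
  -- choose a basis among them
  obtain ⟨b, hb1, hb2, hb3⟩ := exists_linearIndependent (ZMod p) (Set.range v)
  rw [hspan] at hb2
  let β : Module.Basis b (ZMod p) (Y → ZMod p) := Module.Basis.mk hb3 (by
    rw [Subtype.range_coe, hb2])
  have hcb : Nonempty (Y ≃ b) := by
    have : Fintype b := FiniteDimensional.fintypeBasisIndex β
    refine ⟨Fintype.equivOfCardEq ?_⟩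
    rw [← Module.finrank_eq_card_basis β, Module.finrank_fintype_fun_eq_card]
  obtain ⟨e⟩ := hcb
  choose γ hγ using fun x : Y => hb1 (e x).2
  let A : Matrix Y Y ℤ := Matrix.of fun x z => (f (γ x • z) : ℤ)
  have hA : A.det ≠ 0 := by
    intro h0
    have h1 : (A.map (Int.castRingHom (ZMod p))).det = 0 := by
      rw [← RingHom.mapMatrix_apply, ← RingHom.map_det, h0, map_zero]
    have h2 : LinearIndependent (ZMod p) (fun x => (A.map (Int.castRingHom (ZMod p))) x) := by
      have h3 : (fun x => (A.map (Int.castRingHom (ZMod p))) x) = fun x => ((e x : b) : Y → ZMod p) := by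
        funext x z
        rw [← hγ x]
        simp [A, v, Matrix.map_apply]
      rw [h3]
      exact hb3.comp e e.injective
    have h3 : IsUnit (A.map (Int.castRingHom (ZMod p))) := Matrix.linearIndependent_rows_iff_isUnit.1 h2
    have h4 := (Matrix.isUnit_iff_isUnit_det _).1 h3
    rw [h1] at h4
    exact not_isUnit_zero h4
  have hC : (A.map (Int.castRingHom ℂ)).det ≠ 0 := by
    rw [← RingHom.mapMatrix_apply, ← RingHom.map_det]
    simpa using hA
  have h4 : (A.map (Int.castRingHom ℂ)).mulVec y = 0 := by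
    funext x
    have h5 := hy (γ x)
    simpa [Matrix.mulVec, dotProduct, A] using h5
  exact Matrix.eq_zero_of_mulVec_eq_zero hC h4

end Pool.Agent.H943.KS
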