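import Mathlib
import Pool.Agent.H943.KS.Modp

/-!
# Signatures on a transitive Galois set with a quadratic subfield
-/

set_option autoImplicit false
set_option linter.unusedSectionVars false

open Finset MulAction

namespace Pool.Agent.H943.KS

variable {G X : Type} [Group G] [MulAction G X] [Fintype X]

/-- A signature: `X` is the set of the places of a CM field with complex conjugation `c`, `P` is the
set of those which extend one embedding of an imaginary quadratic subfield, and `r` is the relative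
multiplicity. -/
structure Sig (G : Type) {X : Type} [Group G] [MulAction G X] [Fintype X]
    (c : X → X) (P : X → Prop) (r : X → ℕ) (n' : ℕ) : Prop where
  cc : ∀ x, c (c x) = x
  cg : ∀ (σ : G) x, c (σ • x) = σ • c x
  sum : ∀ x, r x + r (c x) = n'
  Pc : ∀ x, P (c x) ↔ ¬ P x
  Pg : ∀ (σ : G) x y, (P x ↔ P y) → (P (σ • x) ↔ P (σ • y))
  tr : ∀ x y : X, ∃ σ : G, σ • x = y
  ne : ∃ x, P x

/-- The numerical condition. -/
def Good (t N : ℕ) : Prop :=
  3 ≤ N ∧ (t = 1 ∨ (t = 2 ∧ ¬ 2 ∣ N) ∨ ∃ p c : ℕ, p.Prime ∧ N = p ^ c ∧ ¬ p ∣ t)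

theorem Good.coprime {t N : ℕ} (h : Good t N) : Nat.Coprime t N := by
  obtain ⟨-, rfl | ⟨rfl, h2⟩ | ⟨p, c, hp, rfl, ht⟩⟩ := h
  · exact Nat.coprime_one_left _
  · exact (Nat.Prime.coprime_iff_not_dvd Nat.prime_two).2 h2
  · exact Nat.Coprime.pow_right c ((Nat.coprime_comm).1 ((Nat.Prime.coprime_iff_not_dvd hp).2 ht))

theorem Good.two {t N : ℕ} (h : Good t N) : 2 * t ≠ N := by
  intro h1
  have h2 := h.coprime
  have h3 := h.1
  have h4 : t = 1 := h2.eq_one_of_dvd ⟨2, by rw [← h1, mul_comm]⟩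
  omega

section

variable {c : X → X} {P : X → Prop} {r : X → ℕ} {n' : ℕ} (S : Sig G c P r n')
include S

/-- The stabilizer of the set `P`. -/
def Gp (G : Type) {X : Type} [Group G] [MulAction G X] (P : X → Prop) : Subgroup G where
  carrier := {σ | ∀ x, P (σ • x) ↔ P x}
  mul_mem' := fun {a b} ha hb x => by rw [mul_smul, ha, hb]
  one_mem' := fun x => by rw [one_smul]
  inv_mem' := fun {a} ha x => by
    have h1 := ha (a⁻¹ • x)
    rw [smul_inv_smul] at h1
    exact h1.symm

theorem mem_Gp {σ : G} {x : X} (h : P (σ • x) ↔ P x) : σ ∈ Gp G P := by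
  intro y
  by_cases h1 : (P x ↔ P y)
  · have h2 := S.Pg σ x y h1
    tauto
  · have h3 : (P x ↔ P (c y)) := by
      rw [S.Pc]
      tauto
    have h2 := S.Pg σ x (c y) h3
    rw [← S.cg, S.Pc] at h2
    tauto

/-- The action on the set `P`. -/
@[reducible] def actP (G : Type) {X : Type} [Group G] [MulAction G X] (P : X → Prop) :
    MulAction (Gp G P) {x // P x} where
  smul σ x := ⟨(σ : G) • x.1, (σ.2 x.1).2 x.2⟩
  one_smul x := Subtype.ext (one_smul G x.1)
  mul_smul σ τ x := Subtype.ext (mul_smul (σ : G) (τ : G) x.1)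

theorem trP (x y : {x // P x}) : ∃ σ : Gp G P, (σ : G) • x.1 = y.1 := by
  obtain ⟨σ, hσ⟩ := S.tr x.1 y.1
  exact ⟨⟨σ, mem_Gp S (x := x.1) (by rw [hσ]; exact ⟨fun _ => x.2, fun _ => y.2⟩)⟩, hσ⟩

theorem sum_zero_of [DecidablePred P] (h2 : 2 * (∑ x : {x // P x}, r x) ≠
      n' * Fintype.card {x // P x})
    (lam : {x // P x} → ℂ)
    (h : ∀ σ : Gp G P, ∑ x : {x // P x}, (2 * (r ((σ : G) • x.1) : ℂ) - n') * lam x = 0) :
    ∑ x, lam x = 0 := by
  classical
  let _ := actP G P
  let Γ := (MulAction.toPermHom (Gp G P) {x // P x}).range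
  have : Finite Γ := inferInstance
  have : Fintype Γ := Fintype.ofFinite Γ
  -- the average
  let Lam : {x // P x} → ℂ := fun x => ∑ γ : Γ, lam (γ.1 x)
  have hperm : ∀ γ : Γ, ∑ x, lam (γ.1 x) = ∑ x, lam x := fun γ =>
    Fintype.sum_equiv γ.1 _ _ fun x => rfl
  have hinv : ∀ (δ : Γ) (x : {x // P x}), Lam (δ.1 x) = Lam x := by
    intro δ x
    change ∑ γ : Γ, lam (γ.1 (δ.1 x)) = ∑ γ : Γ, lam (γ.1 x)
    exact Fintype.sum_equiv (Equiv.mulRight δ) _ _ fun γ => rfl
  have hconst : ∀ x y, Lam x = Lam y := by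
    intro x y
    obtain ⟨σ, hσ⟩ := trP S x y
    have h1 := hinv ⟨MulAction.toPermHom (Gp G P) {x // P x} σ, ⟨σ, rfl⟩⟩ x
    rw [← h1]
    congr 1
    exact Subtype.ext hσ
  have hL : ∑ x : {x // P x}, (2 * (r x.1 : ℂ) - n') * Lam x = 0 := by
    have h1 : ∀ γ : Γ, ∑ x : {x // P x}, (2 * (r x.1 : ℂ) - n') * lam (γ.1 x) = 0 := by
      rintro ⟨_, ⟨σ, rfl⟩⟩
      rw [← h σ⁻¹]
      refine Fintype.sum_equiv (MulAction.toPerm σ) _ _ fun x => ?_
      have h2 : ((σ⁻¹ : Gp G P) : G) • (MulAction.toPerm σ x : {x // P x}).1 = x.1 := by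
        change ((σ⁻¹ : Gp G P) : G) • ((σ : G) • x.1) = x.1
        rw [Subgroup.coe_inv, inv_smul_smul]
      rw [h2]
      rfl
    calc ∑ x : {x // P x}, (2 * (r x.1 : ℂ) - n') * Lam x =
        ∑ γ : Γ, ∑ x : {x // P x}, (2 * (r x.1 : ℂ) - n') * lam (γ.1 x) := by
          rw [sum_comm]
          exact sum_congr rfl fun x _ => by rw [mul_sum]
    _ = 0 := sum_eq_zero fun γ _ => h1 γ
  obtain ⟨x0, hx0⟩ := S.ne
  have hL2 : (∑ x : {x // P x}, (2 * (r x.1 : ℂ) - n')) * Lam ⟨x0, hx0⟩ = 0 := by
    rw [sum_mul, ← hL]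
    exact sum_congr rfl fun x _ => by rw [hconst x ⟨x0, hx0⟩]
  have h3 : (∑ x : {x // P x}, (2 * (r x.1 : ℂ) - n')) ≠ 0 := by
    rw [sum_sub_distrib, ← mul_sum, sum_const, card_univ, nsmul_eq_mul, sub_ne_zero]
    intro h4
    apply h2
    have h5 : ((2 * (∑ x : {x // P x}, r x.1) : ℕ) : ℂ) = ((n' * Fintype.card {x // P x} : ℕ) : ℂ) := by
      push_cast
      rw [h4, mul_comm]
    exact_mod_cast h5
  have h4 : Lam ⟨x0, hx0⟩ = 0 := (mul_eq_zero.1 hL2).resolve_left h3
  have h5 : ∑ x, Lam x = (Fintype.card Γ : ℂ) * ∑ x, lam x := by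
    change ∑ x, ∑ γ : Γ, lam (γ.1 x) = _
    rw [sum_comm, sum_congr rfl fun γ _ => hperm γ, sum_const, card_univ, nsmul_eq_mul]
  have h6 : ∑ x, Lam x = 0 := sum_eq_zero fun x _ => by rw [hconst x ⟨x0, hx0⟩, h4]
  rw [h6] at h5
  refine (mul_eq_zero.1 h5.symm).resolve_left ?_
  have : Nonempty Γ := ⟨1⟩
  exact Nat.cast_ne_zero.2 Fintype.card_ne_zero

end

/-- A function on a transitive set of odd cardinality such that its values at two points, and at all
their translates, are opposite, is zero. -/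
theorem odd_zero {H Y : Type} [Group H] [MulAction H Y] [Fintype Y] [IsPretransitive H Y]
    (hodd : ¬ 2 ∣ Fintype.card Y) (y1 y2 : Y) (f : Y → ℂ)
    (h : ∀ σ : H, f (σ • y1) + f (σ • y2) = 0) : f = 0 := by
  classical
  obtain ⟨τ, hτ⟩ := MulAction.exists_smul_eq H y1 y2
  by_contra hf
  let K1 : Subgroup H :=
    { carrier := {a | ∀ σ : H, f (σ • a • y1) = f (σ • y1)}
      mul_mem' := fun {a b} ha hb σ => by
        have h1 := hb (σ * a)
        rw [mul_smul, mul_smul] at h1
        rw [mul_smul, h1, ha]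
      one_mem' := fun σ => by rw [one_smul]
      inv_mem' := fun {a} ha σ => by
        have h1 := ha (σ * a⁻¹)
        rw [mul_smul, inv_smul_smul, mul_smul] at h1
        exact h1.symm }
  let K2 : Subgroup H :=
    { carrier := {a | (∀ σ : H, f (σ • a • y1) = f (σ • y1)) ∨
        (∀ σ : H, f (σ • a • y1) = - f (σ • y1))}
      mul_mem' := fun {a b} ha hb => by
        rcases ha with ha | ha <;> rcases hb with hb | hb
        · left
          intro σ
          have h1 := hb (σ * a)
          rw [mul_smul, mul_smul] at h1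
          rw [mul_smul, h1, ha]
        · right
          intro σ
          have h1 := hb (σ * a)
          rw [mul_smul, mul_smul] at h1
          rw [mul_smul, h1, ha]
        · right
          intro σ
          have h1 := hb (σ * a)
          rw [mul_smul, mul_smul] at h1
          rw [mul_smul, h1, ha]
        · left
          intro σ
          have h1 := hb (σ * a)
          rw [mul_smul, mul_smul] at h1
          rw [mul_smul, h1, ha, neg_neg]
      one_mem' := Or.inl fun σ => by rw [one_smul]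
      inv_mem' := fun {a} ha => by
        rcases ha with ha | ha
        · left
          intro σ
          have h1 := ha (σ * a⁻¹)
          rw [mul_smul, inv_smul_smul, mul_smul] at h1
          exact h1.symm
        · right
          intro σ
          have h1 := ha (σ * a⁻¹)
          rw [mul_smul, inv_smul_smul, mul_smul] at h1
          rw [h1, neg_neg] }
  have h12 : K1 ≤ K2 := fun a ha => Or.inl ha
  have hτ' : ∀ σ : H, f (σ • τ • y1) = - f (σ • y1) := by
    intro σ
    rw [hτ]
    exact eq_neg_of_add_eq_zero_right (h σ)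
  have hrel : K1.relIndex K2 = 2 := by
    rw [Subgroup.relIndex, Subgroup.index_eq_two_iff]
    refine ⟨⟨τ, Or.inr hτ'⟩, fun b => ?_⟩
    have hb : (b * ⟨τ, Or.inr hτ'⟩ ∈ K1.subgroupOf K2) ↔
        ∀ σ : H, - f (σ • b.1 • y1) = f (σ • y1) := by
      rw [Subgroup.mem_subgroupOf]
      change (∀ σ : H, f (σ • (b.1 * τ) • y1) = f (σ • y1)) ↔ _
      refine forall_congr' fun σ => ?_
      have h1 := hτ' (σ * b.1)
      rw [mul_smul, mul_smul] at h1
      rw [mul_smul, h1]
    have hb' : (b ∈ K1.subgroupOf K2) ↔ ∀ σ : H, f (σ • b.1 • y1) = f (σ • y1) := by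
      rw [Subgroup.mem_subgroupOf]
      rfl
    rw [hb, hb']
    rcases b.2 with h1 | h1
    · right
      refine ⟨h1, fun h2 => hf ?_⟩
      funext y
      obtain ⟨σ, rfl⟩ := MulAction.exists_smul_eq H y1 y
      have h3 := h2 σ
      rw [h1 σ] at h3
      have h4 : (2 : ℂ) * f (σ • y1) = 0 := by linear_combination -h3
      exact (mul_eq_zero.1 h4).resolve_left two_ne_zero
    · left
      refine ⟨fun σ => by rw [h1, neg_neg], fun h2 => hf ?_⟩
      funext y
      obtain ⟨σ, rfl⟩ := MulAction.exists_smul_eq H y1 y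
      have h3 := h2 σ
      rw [h1 σ] at h3
      have h4 : (2 : ℂ) * f (σ • y1) = 0 := by linear_combination -h3
      exact (mul_eq_zero.1 h4).resolve_left two_ne_zero
  have hst : MulAction.stabilizer H y1 ≤ K1 := by
    intro a ha σ
    rw [MulAction.mem_stabilizer_iff.1 ha]
  have h3 := Subgroup.relIndex_mul_index h12
  have h4 := Subgroup.relIndex_mul_index hst
  rw [MulAction.index_stabilizer_of_transitive H y1, Nat.card_eq_fintype_card] at h4
  rw [hrel] at h3
  apply hodd
  rw [← h4, ← h3]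
  exact ⟨(MulAction.stabilizer H y1).relIndex K1 * K2.index, by ring⟩

section

variable {c : X → X} {P : X → Prop} {r : X → ℕ} {n' : ℕ} (S : Sig G c P r n') [DecidablePred P]
  (hg : Good (∑ x : {x // P x}, r x) (n' * Fintype.card {x // P x}))

omit S in
/-- A sum equal to two. -/
theorem sum_two [DecidableEq {x // P x}] (h : ∑ x : {x // P x}, r x = 2) :
    (∃ x1 : {x // P x}, r x1.1 = 2 ∧ ∀ x : {x // P x}, x ≠ x1 → r x.1 = 0) ∨
    (∃ x1 x2 : {x // P x}, x1 ≠ x2 ∧ r x1.1 = 1 ∧ r x2.1 = 1 ∧
      ∀ x : {x // P x}, x ≠ x1 → x ≠ x2 → r x.1 = 0) := by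
  obtain ⟨x1, -, hx1⟩ := Finset.exists_ne_zero_of_sum_ne_zero (s := univ)
    (f := fun x : {x // P x} => r x.1) (by rw [h]; exact two_ne_zero)
  rw [← Finset.add_sum_erase univ (fun x : {x // P x} => r x.1) (mem_univ x1)] at h
  have h1 : r x1.1 = 2 ∧ ∑ x ∈ univ.erase x1, r x.1 = 0 ∨
      r x1.1 = 1 ∧ ∑ x ∈ univ.erase x1, r x.1 = 1 := by omega
  rcases h1 with ⟨h1, h2⟩ | ⟨h1, h2⟩
  · left
    exact ⟨x1, h1, fun x hx => Finset.sum_eq_zero_iff.1 h2 x (mem_erase.2 ⟨hx, mem_univ x⟩)⟩
  · right
    obtain ⟨x2, hx2m, hx2⟩ := Finset.exists_ne_zero_of_sum_ne_zero (s := univ.erase x1)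
      (f := fun x : {x // P x} => r x.1) (by rw [h2]; exact one_ne_zero)
    rw [← Finset.add_sum_erase (univ.erase x1) (fun x : {x // P x} => r x.1) hx2m] at h2
    have h3 : r x2.1 = 1 ∧ ∑ x ∈ (univ.erase x1).erase x2, r x.1 = 0 := by
      constructor <;> omega
    refine ⟨x1, x2, (Finset.ne_of_mem_erase hx2m).symm, h1, h3.1, fun x hx hx' => ?_⟩
    exact Finset.sum_eq_zero_iff.1 h3.2 x (mem_erase.2 ⟨hx', mem_erase.2 ⟨hx, mem_univ x⟩⟩)

include S hg

/-- The translates of the signature are total. -/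
theorem total (lam : {x // P x} → ℂ)
    (h : ∀ σ : Gp G P, ∑ x : {x // P x}, (r ((σ : G) • x.1) : ℂ) * lam x = 0) : lam = 0 := by
  classical
  obtain ⟨h3, h1 | ⟨h1, h2⟩ | ⟨p, k, hp, hN, ht⟩⟩ := hg
  · -- one place
    obtain ⟨x1, hx1, hx1'⟩ : ∃ x1 : {x // P x}, r x1.1 = 1 ∧ ∀ x : {x // P x}, x ≠ x1 → r x.1 = 0 := by
      obtain ⟨x1, -, hx1⟩ := Finset.exists_ne_zero_of_sum_ne_zero (s := univ)
        (f := fun x : {x // P x} => r x.1) (by rw [h1]; exact one_ne_zero)
      rw [← Finset.add_sum_erase univ (fun x : {x // P x} => r x.1) (mem_univ x1)] at h1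
      have h4 : r x1.1 = 1 ∧ ∑ x ∈ univ.erase x1, r x.1 = 0 := by
        constructor <;> omega
      refine ⟨x1, h4.1, fun x hx => ?_⟩
      exact Finset.sum_eq_zero_iff.1 h4.2 x (mem_erase.2 ⟨hx, mem_univ x⟩)
    funext x
    obtain ⟨σ, hσ⟩ := trP S x x1
    have h4 := h σ
    rw [Finset.sum_eq_single x] at h4
    · rw [hσ, hx1, Nat.cast_one, one_mul] at h4
      exact h4
    · intro y _ hy
      have h5 : (⟨(σ : G) • y.1, (σ.2 y.1).2 y.2⟩ : {x // P x}) ≠ x1 := by
        intro h6
        apply hy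
        have h7 := congrArg Subtype.val h6
        apply Subtype.ext
        exact (MulAction.injective (σ : G)) (h7.trans hσ.symm)
      have h6 := hx1' _ h5
      change r ((σ : G) • y.1) = 0 at h6
      rw [h6, Nat.cast_zero, zero_mul]
    · intro h5
      exact absurd (mem_univ x) h5
  · rcases sum_two h1 with ⟨x1, hx1, hx1'⟩ | ⟨x1, x2, h12, hx1, hx2, hx⟩
    · funext x
      obtain ⟨σ, hσ⟩ := trP S x x1
      have h4 := h σ
      rw [Finset.sum_eq_single x] at h4
      · rw [hσ, hx1] at h4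
        exact (mul_eq_zero.1 h4).resolve_left (by norm_num)
      · intro y _ hy
        have h5 : (⟨(σ : G) • y.1, (σ.2 y.1).2 y.2⟩ : {x // P x}) ≠ x1 := by
          intro h6
          apply hy
          have h7 := congrArg Subtype.val h6
          apply Subtype.ext
          exact (MulAction.injective (σ : G)) (h7.trans hσ.symm)
        have h6 := hx1' _ h5
        change r ((σ : G) • y.1) = 0 at h6
        rw [h6, Nat.cast_zero, zero_mul]
      · intro h5
        exact absurd (mem_univ x) h5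
    · let _ := actP G P
      have : IsPretransitive (Gp G P) {x // P x} := ⟨fun x y => by
        obtain ⟨σ, hσ⟩ := trP S x y
        exact ⟨σ, Subtype.ext hσ⟩⟩
      refine odd_zero (H := Gp G P) ?_ x1 x2 lam ?_
      · intro h4
        exact h2 (h4.trans (dvd_mul_left _ _))
      · intro σ
        have h4 := h σ⁻¹
        have h5 : ∀ y : {x // P x}, ((σ⁻¹ : Gp G P) : G) • (σ • y : {x // P x}).1 = y.1 := by
          intro y
          change ((σ⁻¹ : Gp G P) : G) • ((σ : G) • y.1) = y.1
          rw [Subgroup.coe_inv, inv_smul_smul]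
        have h6 : ∑ x : {x // P x}, (r (((σ⁻¹ : Gp G P) : G) • x.1) : ℂ) * lam x =
            ∑ y : {x // P x}, (r y.1 : ℂ) * lam (σ • y) := by
          symm
          refine Fintype.sum_equiv (MulAction.toPerm σ) _ _ fun y => ?_
          have h7 := h5 y
          change (r y.1 : ℂ) * lam (σ • y) =
            (r (((σ⁻¹ : Gp G P) : G) • (σ • y : {x // P x}).1) : ℂ) * lam (σ • y)
          rw [h7]
        rw [h6, ← Finset.add_sum_erase univ _ (mem_univ x1),
          ← Finset.add_sum_erase (univ.erase x1) _ (mem_erase.2 ⟨h12.symm, mem_univ x2⟩),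
          Finset.sum_eq_zero, hx1, hx2, Nat.cast_one, one_mul, one_mul, add_zero] at h4
        · exact h4
        · intro y hy
          rw [mem_erase, mem_erase] at hy
          rw [hx y hy.2.1 hy.1, Nat.cast_zero, zero_mul]
  · let _ := actP G P
    obtain ⟨a, -, ha⟩ := (Nat.dvd_prime_pow hp).1 (hN ▸ dvd_mul_left _ _ :
      Fintype.card {x // P x} ∣ p ^ k)
    refine modp_complex (G := Gp G P) hp ha ?_ (fun x : {x // P x} => r x.1) ht lam ?_
    · intro x y
      obtain ⟨σ, hσ⟩ := trP S x y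
      exact ⟨σ, Subtype.ext hσ⟩
    · intro σ
      exact h σ

/-- **Nondegeneracy.** -/
theorem nd (lam : X → ℂ) (hodd : ∀ x, lam (c x) = - lam x)
    (h : ∀ σ : G, ∑ x, ((r (σ • x) : ℂ) - r (c (σ • x))) * lam x = 0) : lam = 0 := by
  classical
  have hr : ∀ x, (r (c x) : ℂ) = n' - r x := fun x => by
    rw [← S.sum x]
    push_cast
    ring
  have hP0 : ∀ f : X → ℂ, (∀ x, f (c x) = f x) → ∑ x, f x = 2 * ∑ x : {x // P x}, f x.1 := by
    intro f hf
    rw [← Finset.sum_filter_add_sum_filter_not univ P, two_mul]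
    have h1 : ∑ x ∈ univ.filter P, f x = ∑ x : {x // P x}, f x.1 :=
      Finset.sum_subtype _ (fun x => by simp) f
    have h2 : ∑ x ∈ univ.filter (fun x => ¬ P x), f x = ∑ x ∈ univ.filter P, f x := by
      refine Finset.sum_bij' (fun x _ => c x) (fun x _ => c x) ?_ ?_ ?_ ?_ ?_
      · intro x hx
        rw [mem_filter] at hx ⊢
        exact ⟨mem_univ _, (S.Pc x).2 hx.2⟩
      · intro x hx
        rw [mem_filter] at hx ⊢
        exact ⟨mem_univ _, fun h3 => (S.Pc x).1 h3 hx.2⟩
      · intro x _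
        exact S.cc x
      · intro x _
        exact S.cc x
      · intro x _
        exact (hf x).symm
    rw [h2, h1]
  have key : ∀ σ : Gp G P, ∑ x : {x // P x}, (2 * (r ((σ : G) • x.1) : ℂ) - n') * lam x.1 = 0 := by
    intro σ
    have h1 := h (σ : G)
    have h2 := hP0 (fun x => ((r ((σ : G) • x) : ℂ) - r (c ((σ : G) • x))) * lam x) (by
      intro x
      rw [hodd, ← S.cg, S.cc]
      ring)
    rw [h1] at h2
    have h3 := (mul_eq_zero.1 h2.symm).resolve_left two_ne_zero
    rw [← h3]
    refine sum_congr rfl fun x _ => ?_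
    rw [hr]
    ring
  have hsum := sum_zero_of S (Good.two hg) (fun x => lam x.1) key
  have h0 := total S hg (fun x => lam x.1) (fun σ => by
    have h1 := key σ
    have h2 : ∑ x : {x // P x}, (2 * (r ((σ : G) • x.1) : ℂ) - n') * lam x.1 =
        2 * (∑ x : {x // P x}, (r ((σ : G) • x.1) : ℂ) * lam x.1) -
          n' * ∑ x : {x // P x}, lam x.1 := by
      rw [mul_sum, mul_sum, ← sum_sub_distrib]
      exact sum_congr rfl fun x _ => by ring
    rw [hsum, mul_zero, sub_zero] at h2
    rw [h1] at h2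
    exact (mul_eq_zero.1 h2.symm).resolve_left two_ne_zero)
  funext x
  by_cases hx : P x
  · exact congrFun h0 ⟨x, hx⟩
  · have h1 := congrFun h0 ⟨c x, (S.Pc x).2 hx⟩
    have h2 := hodd x
    change lam (c x) = 0 at h1
    rw [h1] at h2
    change lam x = 0
    exact neg_eq_zero.1 h2.symm

/-- **Coprimality.** -/
theorem cop (x : X) : ∃ σ : G, Nat.Coprime (r (σ • x)) (r (c (σ • x))) := by
  classical
  obtain ⟨x1, hx1⟩ : ∃ x1 : X, Nat.Coprime (r x1) (r (c x1)) := by
    obtain ⟨h3, h1 | ⟨h1, h2⟩ | ⟨p, k, hp, hN, ht⟩⟩ := hg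
    · obtain ⟨x1, -, hx1⟩ := Finset.exists_ne_zero_of_sum_ne_zero (s := univ)
        (f := fun x : {x // P x} => r x.1) (by rw [h1]; exact one_ne_zero)
      refine ⟨x1.1, ?_⟩
      rw [← Finset.add_sum_erase univ (fun x : {x // P x} => r x.1) (mem_univ x1)] at h1
      have h4 : r x1.1 = 1 := by omega
      rw [h4]
      exact Nat.coprime_one_left _
    · rcases sum_two h1 with ⟨x1, hx1, -⟩ | ⟨x1, x2, h12, hx1, hx2, hx⟩
      · refine ⟨x1.1, ?_⟩
        have h4 := S.sum x1.1
        rw [hx1] at h4 ⊢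
        refine (Nat.Prime.coprime_iff_not_dvd Nat.prime_two).2 fun h5 => h2 ?_
        refine Dvd.dvd.mul_right ?_ _
        omega
      · exact ⟨x1.1, by rw [hx1]; exact Nat.coprime_one_left _⟩
    · obtain ⟨x1, hx1⟩ : ∃ x1 : {x // P x}, ¬ p ∣ r x1.1 := by
        by_contra hcon
        push Not at hcon
        exact ht (Finset.dvd_sum fun x _ => hcon x)
      refine ⟨x1.1, ?_⟩
      have h4 := S.sum x1.1
      have h5 : Nat.Coprime (r x1.1) n' := by
        obtain ⟨a, -, ha⟩ := (Nat.dvd_prime_pow hp).1 (hN ▸ dvd_mul_right _ _ : n' ∣ p ^ k)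
        rw [ha]
        exact Nat.Coprime.pow_right a ((Nat.coprime_comm).1 ((Nat.Prime.coprime_iff_not_dvd hp).2 hx1))
      rw [← h4] at h5
      exact (Nat.coprime_self_add_right).1 h5
  obtain ⟨σ, hσ⟩ := S.tr x x1
  exact ⟨σ, by rw [hσ]; exact hx1⟩

/-- **Separation.** -/
theorem sep {x y : X} (h1 : y ≠ x) (h2 : y ≠ c x) (hn : n' ≠ 1)
    (h : ∀ σ : G, r (σ • x) = r (σ • y) ∨
      (r (σ • x) * r (c (σ • x)) = 0 ∧ r (σ • y) * r (c (σ • y)) = 0)) : False := by
  classical
  -- reduction to the case in which `x` is in `P`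
  have main : ∀ x y : X, P x → y ≠ x → y ≠ c x → (∀ σ : G, r (σ • x) = r (σ • y) ∨
      (r (σ • x) * r (c (σ • x)) = 0 ∧ r (σ • y) * r (c (σ • y)) = 0)) → False := by
    clear h h1 h2 x y
    intro x y hPx h1 h2 h
    have hN0 : 0 < n' * Fintype.card {x // P x} := by
      have := hg.1
      omega
    have hn0 : 0 < n' := Nat.pos_of_mul_pos_right hN0 |> fun _ => Nat.pos_of_ne_zero (fun h0 => by
      rw [h0, zero_mul] at hN0
      exact lt_irrefl _ hN0)
    have hg' := hg
    rcases hg with ⟨h3, h4 | ⟨h4, h4'⟩ | ⟨p, k, hp, hN, ht⟩⟩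
    · obtain ⟨x1, hx1, hx1'⟩ : ∃ x1 : {x // P x}, r x1.1 = 1 ∧
          ∀ x : {x // P x}, x ≠ x1 → r x.1 = 0 := by
        obtain ⟨x1, -, hx1⟩ := Finset.exists_ne_zero_of_sum_ne_zero (s := univ)
          (f := fun x : {x // P x} => r x.1) (by rw [h4]; exact one_ne_zero)
        rw [← Finset.add_sum_erase univ (fun x : {x // P x} => r x.1) (mem_univ x1)] at h4
        have h5 : r x1.1 = 1 ∧ ∑ x ∈ univ.erase x1, r x.1 = 0 := by
          constructor <;> omega
        refine ⟨x1, h5.1, fun x hx => ?_⟩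
        exact Finset.sum_eq_zero_iff.1 h5.2 x (mem_erase.2 ⟨hx, mem_univ x⟩)
      obtain ⟨σ, hσ⟩ := S.tr x x1.1
      have h5 := h σ
      have h6 := S.sum x1.1
      have h7 : r (σ • y) = 1 := by
        rcases h5 with h5 | ⟨h5, -⟩
        · rw [← h5, hσ, hx1]
        · rw [hσ, hx1, one_mul] at h5
          omega
      by_cases hPy : P (σ • y)
      · have h8 : (⟨σ • y, hPy⟩ : {x // P x}) = x1 := by
          by_contra h9
          have h10 := hx1' _ h9
          change r (σ • y) = 0 at h10
          omega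
        have h9 := congrArg Subtype.val h8
        change σ • y = x1.1 at h9
        exact h1 (MulAction.injective σ (h9.trans hσ.symm))
      · have hPcy : P (c (σ • y)) := (S.Pc _).2 hPy
        have h8 := S.sum (σ • y)
        have h9 : (⟨c (σ • y), hPcy⟩ : {x // P x}) = x1 := by
          by_contra h9
          have h10 := hx1' _ h9
          change r (c (σ • y)) = 0 at h10
          omega
        have h10 := congrArg Subtype.val h9
        change c (σ • y) = x1.1 at h10
        apply h2
        have h11 : σ • y = c (σ • x) := by rw [hσ, ← h10, S.cc]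
        rw [S.cg] at h11
        exact MulAction.injective σ h11
    · -- the sum is two
      have hn3 : 3 ≤ n' := by
        have h5 : ¬ 2 ∣ n' := fun h5 => h4' (Dvd.dvd.mul_right h5 _)
        have h6 : n' ≠ 2 := by
          rintro rfl
          exact h5 (dvd_refl 2)
        omega
      have hle : ∀ x : {x // P x}, r x.1 ≤ 2 := by
        intro x
        rw [← h4]
        exact Finset.single_le_sum (f := fun x : {x // P x} => r x.1) (fun _ _ => Nat.zero_le _)
          (mem_univ x)
      have hle2 : ∀ x y : {x // P x}, x ≠ y → r x.1 + r y.1 ≤ 2 := by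
        intro x y hxy
        rw [← h4, ← Finset.add_sum_erase univ (fun x : {x // P x} => r x.1) (mem_univ x)]
        have h5 : r y.1 ≤ ∑ z ∈ univ.erase x, r z.1 :=
          Finset.single_le_sum (f := fun x : {x // P x} => r x.1) (fun _ _ => Nat.zero_le _)
            (mem_erase.2 ⟨hxy.symm, mem_univ y⟩)
        omega
      by_cases hPy : P y
      · have h5 := total S hg' (Pi.single ⟨x, hPx⟩ 1 - Pi.single ⟨y, hPy⟩ 1) (by
          intro γ
          simp only [Pi.sub_apply, mul_sub, sum_sub_distrib, Pi.single_apply, mul_ite, mul_one,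
            mul_zero, sum_ite_eq', mem_univ, if_true]
          rw [sub_eq_zero]
          have h6 : r ((γ : G) • x) = r ((γ : G) • y) := by
            rcases h (γ : G) with h7 | ⟨h7, h8⟩
            · exact h7
            · have s1 := S.sum ((γ : G) • x)
              have s2 := S.sum ((γ : G) • y)
              have l1 := hle ⟨(γ : G) • x, (γ.2 x).2 hPx⟩
              have l2 := hle ⟨(γ : G) • y, (γ.2 y).2 hPy⟩
              change r ((γ : G) • x) ≤ 2 at l1
              change r ((γ : G) • y) ≤ 2 at l2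
              rcases mul_eq_zero.1 h7 with h9 | h9 <;> rcases mul_eq_zero.1 h8 with h10 | h10 <;>
                omega
          rw [h6])
        have h6 := congrFun h5 ⟨x, hPx⟩
        rw [Pi.sub_apply, Pi.single_eq_same, Pi.single_eq_of_ne (fun h7 => h1
          (congrArg Subtype.val h7).symm), sub_zero] at h6
        exact one_ne_zero h6
      · have hPcy : P (c y) := (S.Pc y).2 hPy
        obtain ⟨x1, hx1⟩ : ∃ x1 : {x // P x}, r x1.1 ≠ 0 := by
          obtain ⟨x1, -, hx1⟩ := Finset.exists_ne_zero_of_sum_ne_zero (s := univ)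
            (f := fun x : {x // P x} => r x.1) (by rw [h4]; exact two_ne_zero)
          exact ⟨x1, hx1⟩
        obtain ⟨γ, hγ⟩ := trP S ⟨x, hPx⟩ x1
        change (γ : G) • x = x1.1 at hγ
        have s1 := S.sum ((γ : G) • x)
        have s2 := S.sum ((γ : G) • y)
        have l1 := hle x1
        have hne : (⟨(γ : G) • x, (γ.2 x).2 hPx⟩ : {x // P x}) ≠
            ⟨(γ : G) • c y, (γ.2 (c y)).2 hPcy⟩ := by
          intro h5
          have h6 : (γ : G) • x = (γ : G) • c y := congrArg Subtype.val h5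
          have h7 := MulAction.injective (γ : G) h6
          apply h2
          rw [h7, S.cc]
        have l2 := hle2 _ _ hne
        change r ((γ : G) • x) + r ((γ : G) • c y) ≤ 2 at l2
        rw [← S.cg] at l2
        rw [← hγ] at hx1 l1
        rcases h (γ : G) with h7 | ⟨h7, -⟩
        · omega
        · rcases mul_eq_zero.1 h7 with h9 | h9 <;> omega
    · -- prime powers
      have : Fact p.Prime := ⟨hp⟩
      obtain ⟨b, -, hb⟩ := (Nat.dvd_prime_pow hp).1 (hN ▸ dvd_mul_right _ _ : n' ∣ p ^ k)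
      obtain ⟨a, -, ha⟩ := (Nat.dvd_prime_pow hp).1 (hN ▸ dvd_mul_left _ _ :
        Fintype.card {x // P x} ∣ p ^ k)
      have hb0 : b ≠ 0 := by
        rintro rfl
        exact hn (by rw [hb, pow_zero])
      have hn0' : (n' : ZMod p) = 0 := by
        rw [hb, Nat.cast_pow, ZMod.natCast_self, zero_pow hb0]
      have hrc : ∀ z, (r (c z) : ZMod p) = - r z := fun z => by
        have h5 := congrArg (fun m : ℕ => (m : ZMod p)) (S.sum z)
        simp only [Nat.cast_add] at h5
        rw [hn0'] at h5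
        linear_combination h5
      have hdef : ∀ z, r z * r (c z) = 0 → (r z : ZMod p) = 0 := by
        intro z hz
        rcases mul_eq_zero.1 hz with h5 | h5
        · rw [h5, Nat.cast_zero]
        · have h6 := hrc z
          rw [h5, Nat.cast_zero] at h6
          linear_combination h6
      have hcong : ∀ σ : G, (r (σ • x) : ZMod p) = r (σ • y) := by
        intro σ
        rcases h σ with h5 | ⟨h5, h6⟩
        · rw [h5]
        · rw [hdef _ h5, hdef _ h6]
      let _ := actP G P
      have htrP : ∀ x y : {x // P x}, ∃ γ : Gp G P, γ • x = y := by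
        intro x y
        obtain ⟨σ, hσ⟩ := trP S x y
        exact ⟨σ, Subtype.ext hσ⟩
      have hf0 : ∑ x : {x // P x}, (r x.1 : ZMod p) ≠ 0 := by
        rw [← Nat.cast_sum]
        intro h0
        exact ht ((ZMod.natCast_eq_zero_iff _ _).1 h0)
      by_cases hPy : P y
      · have h5 := modp (G := Gp G P) ha htrP (fun x : {x // P x} => (r x.1 : ZMod p)) hf0
          (Pi.single ⟨x, hPx⟩ 1 - Pi.single ⟨y, hPy⟩ 1) (by
            intro γ
            simp only [Pi.sub_apply, mul_sub, sum_sub_distrib, Pi.single_apply, mul_ite, mul_one,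
              mul_zero, sum_ite_eq', mem_univ, if_true]
            rw [sub_eq_zero]
            exact hcong γ)
        have h6 := congrFun h5 ⟨x, hPx⟩
        rw [Pi.sub_apply, Pi.single_eq_same, Pi.single_eq_of_ne (fun h7 => h1
          (congrArg Subtype.val h7).symm), sub_zero] at h6
        exact one_ne_zero h6
      · have hPcy : P (c y) := (S.Pc y).2 hPy
        have h5 := modp (G := Gp G P) ha htrP (fun x : {x // P x} => (r x.1 : ZMod p)) hf0
          (Pi.single ⟨x, hPx⟩ 1 + Pi.single ⟨c y, hPcy⟩ 1) (by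
            intro γ
            simp only [Pi.add_apply, mul_add, sum_add_distrib, Pi.single_apply, mul_ite, mul_one,
              mul_zero, sum_ite_eq', mem_univ, if_true]
            have h6 : (r ((γ : G) • c y) : ZMod p) = - r ((γ : G) • y) := by
              rw [← S.cg, hrc]
            change (r ((γ : G) • x) : ZMod p) + r ((γ : G) • c y) = 0
            rw [h6, hcong, add_neg_cancel])
        have h6 := congrFun h5 ⟨x, hPx⟩
        rw [Pi.add_apply, Pi.single_eq_same, Pi.single_eq_of_ne (fun h7 => h2 (by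
          have h8 := congrArg Subtype.val h7
          change x = c y at h8
          rw [h8, S.cc])), add_zero] at h6
        exact one_ne_zero h6
  by_cases hPx : P x
  · exact main x y hPx h1 h2 h
  · refine main (c x) (c y) ((S.Pc x).2 hPx) (fun h3 => h1 ?_) (fun h3 => h2 ?_) ?_
    · rw [← S.cc y, h3, S.cc]
    · rw [S.cc] at h3
      rw [← h3, S.cc]
    · intro σ
      have h4 := S.sum (σ • x)
      have h5 := S.sum (σ • y)
      rw [← S.cg, ← S.cg, S.cc, S.cc]
      rcases h σ with h6 | ⟨h6, h7⟩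
      · left
        omega
      · right
        exact ⟨by rw [mul_comm]; exact h6, by rw [mul_comm]; exact h7⟩

end

end Pool.Agent.H943.KS
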