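import Mathlib
import Pool.Graph.R_seed8.Helper18.Br.TensorCSA

/-!
# Representations of division algebras
-/

set_option autoImplicit false
set_option linter.unusedSectionVars false

open TensorProduct Module

namespace Pool.Agent.H943.KS

/-- A central simple algebra of degree `n` has no representation of dimension less than `n`. -/
theorem degree_le {F D W : Type} [Field F] [Ring D] [Algebra F D] [Algebra.IsCentral F D]
    [IsSimpleRing D] [Module.Finite F D] [AddCommGroup W] [Module ℂ W] [Module.Finite ℂ W]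
    [Nontrivial W] (κ : F →+* ℂ) (ρ : D →+* Module.End ℂ W)
    (h : ∀ (a : F) (w : W), ρ (algebraMap F D a) w = κ a • w) {n : ℕ}
    (hn : finrank F D = n ^ 2) : n ≤ finrank ℂ W := by
  let _ : Algebra F ℂ := κ.toAlgebra
  let _ : Algebra F (Module.End ℂ W) := ((algebraMap ℂ (Module.End ℂ W)).comp κ).toAlgebra' (by
    intro c x
    exact Algebra.commutes (κ c) x)
  have : IsScalarTower F ℂ (Module.End ℂ W) := IsScalarTower.of_algebraMap_eq fun x => rfl
  let f : D →ₐ[F] Module.End ℂ W :=
    { ρ with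
      commutes' := fun a => by
        refine LinearMap.ext fun w => ?_
        exact h a w }
  let Φ : ℂ ⊗[F] D →ₐ[ℂ] Module.End ℂ W :=
    Algebra.TensorProduct.lift (Algebra.ofId ℂ _) f (fun x y => Algebra.commutes x (f y))
  have : IsSimpleRing (D ⊗[F] ℂ) := Pool.Agent.Helper18.Br.isSimple_tensor
  have : IsSimpleRing (ℂ ⊗[F] D) :=
    IsSimpleRing.of_ringEquiv (Algebra.TensorProduct.comm F D ℂ).toRingEquiv inferInstance
  have hinj : Function.Injective Φ := Φ.toRingHom.injective
  have h1 : finrank ℂ (ℂ ⊗[F] D) ≤ finrank ℂ (Module.End ℂ W) :=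
    LinearMap.finrank_le_finrank_of_injective (f := Φ.toLinearMap) hinj
  rw [Module.finrank_baseChange, hn, Module.finrank_linearMap, ← sq] at h1
  exact (Nat.pow_le_pow_iff_left two_ne_zero).1 h1

/-- A division algebra of degree `n` has no complex representation of dimension less than `n`. -/
theorem degree_le' {D V : Type} [Ring D] [Algebra ℚ D] [Module.Finite ℚ D] [Nontrivial D]
    (hdiv : ∀ x : D, x ≠ 0 → ∃ y, x * y = 1) [AddCommGroup V] [Module ℂ V] [Module.Finite ℂ V]
    [Nontrivial V] (ρ : D →+* Module.End ℂ V) {n : ℕ}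
    (hn : finrank ℚ D = n ^ 2 * finrank ℚ (Subalgebra.center ℚ D)) : n ≤ finrank ℂ V := by
  classical
  have hunit : ∀ x : D, IsUnit x ∨ x = 0 := by
    intro x
    by_cases hx : x = 0
    · exact Or.inr hx
    · left
      obtain ⟨y, hy⟩ := hdiv x hx
      have hy0 : y ≠ 0 := by
        rintro rfl
        rw [mul_zero] at hy
        exact zero_ne_one hy
      obtain ⟨z, hz⟩ := hdiv y hy0
      have h1 : x = z := by
        calc x = x * (y * z) := by rw [hz, mul_one]
        _ = z := by rw [← mul_assoc, hy, one_mul]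
      exact ⟨⟨x, y, hy, by rw [h1]; exact hz⟩, rfl⟩
  let _ : DivisionRing D := DivisionRing.ofIsUnitOrEqZero hunit
  have hF : IsField (Subalgebra.center ℚ D) := by
    refine ⟨⟨0, 1, zero_ne_one⟩, fun a b => mul_comm a b, ?_⟩
    intro a ha
    obtain ⟨y, hy⟩ := hdiv a.1 (fun h => ha (Subtype.ext h))
    have hy' : y * a.1 = 1 := by
      rw [(Subalgebra.mem_center_iff.1 a.2) y, hy]
    refine ⟨⟨y, ?_⟩, Subtype.ext hy⟩
    rw [Subalgebra.mem_center_iff]
    intro b
    calc b * y = (y * a.1) * b * y := by rw [hy', one_mul]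
    _ = y * (b * a.1) * y := by rw [(Subalgebra.mem_center_iff.1 a.2) b, mul_assoc y]
    _ = y * b := by rw [mul_assoc, mul_assoc b, hy, mul_one]
  let _ : Field (Subalgebra.center ℚ D) := hF.toField
  let _ : Algebra (Subalgebra.center ℚ D) D :=
    (Subalgebra.center ℚ D).val.toRingHom.toAlgebra' (by
      intro c x
      exact ((Subalgebra.mem_center_iff.1 c.2) x).symm)
  have : IsScalarTower ℚ (Subalgebra.center ℚ D) D := by
    refine IsScalarTower.of_algebraMap_eq fun x => rfl
  have hfin : Module.Finite (Subalgebra.center ℚ D) D :=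
    Module.Finite.of_restrictScalars_finite ℚ _ _
  have hcen : Algebra.IsCentral (Subalgebra.center ℚ D) D := by
    refine ⟨fun x hx => ?_⟩
    rw [Subalgebra.mem_center_iff] at hx
    exact Algebra.mem_bot.2 ⟨⟨x, Subalgebra.mem_center_iff.2 hx⟩, rfl⟩
  have hmul := Module.finrank_mul_finrank ℚ (Subalgebra.center ℚ D) D
  have hpos : 0 < finrank ℚ (Subalgebra.center ℚ D) := Module.finrank_pos
  have hn' : finrank (Subalgebra.center ℚ D) D = n ^ 2 := by
    rw [hn, mul_comm] at hmul
    exact Nat.eq_of_mul_eq_mul_right hpos hmul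
  -- a minimal stable subspace
  have hex : ∃ m : ℕ, ∃ W : Submodule ℂ V, W ≠ ⊥ ∧ (∀ d, ∀ w ∈ W, ρ d w ∈ W) ∧
      finrank ℂ W = m := ⟨_, ⊤, top_ne_bot, fun _ _ _ => trivial, rfl⟩
  obtain ⟨W, hW0, hWs, hWm⟩ := Nat.find_spec hex
  have hmin : ∀ W' : Submodule ℂ V, W' ≠ ⊥ → (∀ d, ∀ w ∈ W', ρ d w ∈ W') → W' ≤ W → W' = W := by
    intro W' h1 h2 h3
    apply Submodule.eq_of_le_of_finrank_le h3
    rw [hWm]
    by_contra h4
    exact Nat.find_min hex (not_le.1 h4) ⟨W', h1, h2, rfl⟩
  have hWn : Nontrivial W := Submodule.nontrivial_iff_ne_bot.2 hW0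
  let f : D → Module.End ℂ W := fun d => (ρ d).restrict (hWs d)
  let ρ' : D →+* Module.End ℂ W :=
    { toFun := f
      map_one' := by
        ext w
        change ((ρ 1) w.1) = w.1
        rw [map_one]
        rfl
      map_zero' := by
        ext w
        change ((ρ 0) w.1) = 0
        rw [map_zero]
        rfl
      map_mul' := fun a b => by
        ext w
        change ((ρ (a * b)) w.1) = ρ a (ρ b w.1)
        rw [map_mul]
        rfl
      map_add' := fun a b => by
        ext w
        change ((ρ (a + b)) w.1) = ρ a w.1 + ρ b w.1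
        rw [map_add]
        rfl }
  have hscal : ∀ a : Subalgebra.center ℚ D, ∃ c : ℂ, ∀ w : W, ρ' a.1 w = c • w := by
    intro a
    obtain ⟨c, hc⟩ := Module.End.exists_eigenvalue (ρ' a.1)
    obtain ⟨w0, hw0⟩ := hc.exists_hasEigenvector
    refine ⟨c, ?_⟩
    let W' : Submodule ℂ V :=
      { carrier := {v | v ∈ W ∧ ρ a.1 v = c • v}
        zero_mem' := ⟨W.zero_mem, by rw [map_zero, smul_zero]⟩
        add_mem' := fun {x y} hx hy => ⟨W.add_mem hx.1 hy.1, by
          rw [map_add, hx.2, hy.2, smul_add]⟩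
        smul_mem' := fun r x hx => ⟨W.smul_mem r hx.1, by
          rw [map_smul, hx.2, smul_comm]⟩ }
    have h1 : W' = W := by
      apply hmin
      · intro h2
        have h3 : w0.1 ∈ W' := ⟨w0.2, congrArg Subtype.val hw0.apply_eq_smul⟩
        rw [h2] at h3
        exact hw0.2 (Subtype.ext ((Submodule.mem_bot ℂ).1 h3))
      · rintro d w ⟨h2, h3⟩
        refine ⟨hWs d w h2, ?_⟩
        have h4 : ρ a.1 (ρ d w) = ρ d (ρ a.1 w) := by
          rw [← Module.End.mul_apply, ← map_mul, ← (Subalgebra.mem_center_iff.1 a.2) d, map_mul,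
            Module.End.mul_apply]
        rw [h4, h3, map_smul]
      · rintro w ⟨h2, -⟩
        exact h2
    intro w
    have h2 : w.1 ∈ W' := by
      rw [h1]
      exact w.2
    exact Subtype.ext h2.2
  choose κ hκ using hscal
  obtain ⟨w0, hw0⟩ := exists_ne (0 : W)
  have huniq : ∀ {c c' : ℂ}, c • w0 = c' • w0 → c = c' := by
    intro c c' h
    exact smul_left_injective ℂ hw0 h
  let κ' : Subalgebra.center ℚ D →+* ℂ :=
    { toFun := κ
      map_one' := huniq (by
        rw [← hκ]
        change ρ' 1 w0 = _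
        rw [map_one, one_smul]
        rfl)
      map_zero' := huniq (by
        rw [← hκ]
        change ρ' 0 w0 = _
        rw [map_zero, zero_smul]
        rfl)
      map_mul' := fun a b => huniq (by
        rw [← hκ]
        change ρ' (a.1 * b.1) w0 = _
        rw [map_mul, Module.End.mul_apply, hκ b, map_smul, hκ a, smul_smul, mul_comm])
      map_add' := fun a b => huniq (by
        rw [← hκ]
        change ρ' (a.1 + b.1) w0 = _
        rw [map_add, LinearMap.add_apply, hκ b, hκ a, add_smul]) }
  refine le_trans ?_ (Submodule.finrank_le W)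
  exact @degree_le (Subalgebra.center ℚ D) D W _ _ _ hcen _ hfin _ _ _ _ κ' ρ'
    (fun a w => hκ a w) n hn'

end Pool.Agent.H943.KS
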