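import Mathlib
import Pool.Graph.R_seed8.Y4.K.MainK

/-!
# Abelian varieties whose homology has dimension one over a division algebra
-/

set_option autoImplicit false
set_option linter.unusedSectionVars false

namespace Pool.Agent.H943.KS

open Matrix Module Pool.Agent.H204R3.CM Pool.Agent.H194R3.CM Pool.Agent.W437.HC
  Pool.Agent.W437.HD Pool.Agent.W437.HQ Pool.Agent.W548.Odd Pool.Agent.TH125 Pool.Agent.Y4
  Pool.Agent.Y4.G Pool.Agent.Y4.K

open Pool.Agent.Y4.H (exists_prims LZ Ct map_smul_aut' D_mem_LZ Dσ_mem_LZ)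

variable {g : ℕ} {Z : Matrix (Fin g) (Fin g) ℂ}

/-- The rational matrices -/
abbrev MQ (g : ℕ) : Type := Matrix (Fin g ⊕ Fin g) (Fin g ⊕ Fin g) ℚ

/-- `D` is a division algebra of endomorphisms and every nonzero endomorphism that commutes with `D`
is invertible. -/
structure Dv (Z : Matrix (Fin g) (Fin g) ℂ) (D : Subalgebra ℚ (MQ g)) : Prop where
  endo : ∀ x ∈ D, ∃ N, IsEndo Z x N
  div : ∀ x ∈ D, x ≠ 0 → ∃ y, x * y = 1
  com : ∀ X, (∃ N, IsEndo Z X N) → (∀ x ∈ D, X * x = x * X) → X ≠ 0 → ∃ Y, X * Y = 1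

theorem cq_add (x y : MQ g) : cq (x + y) = cq x + cq y := by
  ext i j
  simp [cq]

theorem cq_sub (x y : MQ g) : cq (x - y) = cq x - cq y := by
  ext i j
  simp [cq]

theorem cq_smul (r : ℚ) (x : MQ g) : cq (r • x) = (r : ℂ) • cq x := by
  ext i j
  simp [cq]

theorem cq_one : cq (1 : MQ g) = 1 := Matrix.map_one _ Rat.cast_zero Rat.cast_one

theorem cq_zero : cq (0 : MQ g) = 0 := Matrix.map_zero _ Rat.cast_zero

theorem cq_map (x : MQ g) (σ : ℂ ≃+* ℂ) : (cq x).map (σ : ℂ →+* ℂ) = cq x := by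
  ext i k
  simp [cq]

theorem trace_cq (x : MQ g) : trace (cq x) = ((trace x : ℚ) : ℂ) := by
  unfold cq
  exact (AddMonoidHom.map_trace (Rat.castHom ℂ).toAddMonoidHom x).symm

/-- If the homology has dimension one over `D`, then every nonzero matrix which commutes with `D` is
invertible. -/
theorem unit_of_dim {D : Subalgebra ℚ (MQ g)} (hdiv : ∀ x ∈ D, x ≠ 0 → ∃ y, x * y = 1)
    (hdim : finrank ℚ D = 2 * g) {X : MQ g} (hX : ∀ x ∈ D, X * x = x * X)
    (h0 : X ≠ 0) : ∃ Y, X * Y = 1 := by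
  have key : ∀ v : Fin g ⊕ Fin g → ℚ, X *ᵥ v = 0 → v = 0 := by
    intro v hv
    by_contra hv0
    let f : D →ₗ[ℚ] (Fin g ⊕ Fin g → ℚ) :=
      { toFun := fun x => x.1 *ᵥ v
        map_add' := fun x y => by
          rw [Subalgebra.coe_add, add_mulVec]
        map_smul' := fun c x => by
          rw [Subalgebra.coe_smul, smul_mulVec]
          rfl }
    have hf : Function.Injective f := by
      rw [injective_iff_map_eq_zero]
      intro x hx
      by_contra hne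
      obtain ⟨y, hy⟩ := hdiv x x.2 (fun h => hne (Subtype.ext h))
      have hy' : y * x.1 = 1 := mul_eq_one_comm.1 hy
      apply hv0
      calc v = (y * x.1) *ᵥ v := by rw [hy', one_mulVec]
      _ = 0 := by
        rw [← mulVec_mulVec]
        change y *ᵥ (f x) = 0
        rw [hx, mulVec_zero]
    have hsurj : Function.Surjective f := by
      rw [← LinearMap.range_eq_top]
      apply Submodule.eq_top_of_finrank_eq
      rw [LinearMap.finrank_range_of_inj hf, hdim, finrank_fintype_fun_eq_card, Fintype.card_sum,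
        Fintype.card_fin, two_mul]
    apply h0
    apply Matrix.ext_of_mulVec_single
    intro i
    obtain ⟨x, hx⟩ := hsurj (Pi.single i 1)
    rw [zero_mulVec, ← hx]
    change X *ᵥ (x.1 *ᵥ v) = 0
    rw [mulVec_mulVec, hX x x.2, ← mulVec_mulVec, hv, mulVec_zero]
  have h1 : Function.Injective (mulVecLin X) := by
    rw [injective_iff_map_eq_zero]
    exact key
  have h2 : IsUnit X := Matrix.mulVec_injective_iff_isUnit.1 h1
  obtain ⟨u, hu⟩ := h2
  exact ⟨(u⁻¹ : (MQ g)ˣ), by rw [← hu, Units.mul_inv]⟩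

/-- Commuting factors. -/
theorem Dv.mul_eq_zero {D : Subalgebra ℚ (MQ g)} (hD : Dv Z D) {X Y : MQ g}
    (hXE : ∃ N, IsEndo Z X N)
    (hX : ∀ x ∈ D, X * x = x * X) (h : X * Y = 0) : X = 0 ∨ Y = 0 := by
  by_contra hcon
  push Not at hcon
  obtain ⟨W, hW⟩ := hD.com X hXE hX hcon.1
  have h1 : W * X = 1 := mul_eq_one_comm.1 hW
  exact hcon.2 (by rw [← one_mul Y, ← h1, mul_assoc, h, mul_zero])

section

variable (M : Pol Z) {D : Subalgebra ℚ (MQ g)} (hD : Dv Z D)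
include M hD

theorem comm_of_Zt {u : MQ g} (hu : M.Zt (cq u)) : ∀ x ∈ D, u * x = x * u := by
  intro x hx
  obtain ⟨N, hN⟩ := hD.endo x hx
  apply cq_inj
  rw [cq_mul, cq_mul]
  exact hu.2 _ (M.Ct_of_endo hN)

/-- A rational central element which kills something is zero. -/
theorem rat_zero {u : MQ g} (hu : M.Zt (cq u)) {e : Matrix (Fin g ⊕ Fin g) (Fin g ⊕ Fin g) ℂ}
    (he : e ≠ 0) (h : cq u * e = 0) : u = 0 := by
  by_contra h0
  obtain ⟨Y, hY⟩ := hD.com u (M.endo_of_Ct hu.1) (comm_of_Zt M hD hu) h0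
  have h1 : Y * u = 1 := mul_eq_one_comm.1 hY
  apply he
  rw [← one_mul e, ← cq_one, ← h1, cq_mul, mul_assoc, h, mul_zero]

/-- All primitive idempotents are conjugate and equivalent. -/
theorem transitive (φ ψ : Pr Z) : ∃ σ : ℂ ≃+* ℂ, Eqv (M.act σ φ) ψ := by
  classical
  by_contra hcon
  push Not at hcon
  obtain ⟨I, hI, ε, f1, f2, f3⟩ := M.exists_family
  have F : Pol.Fam ε := ⟨f1, f2, f3⟩
  let C : Submodule ℂ (Matrix (Fin g ⊕ Fin g) (Fin g ⊕ Fin g) ℂ) :=
    { carrier := {X | M.Zt X ∧ ∀ σ : ℂ ≃+* ℂ, X * (M.act σ φ).e = 0}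
      zero_mem' := ⟨⟨fun X _ => by rw [zero_mul, mul_zero], fun X _ => by
        rw [zero_mul, mul_zero]⟩, fun σ => zero_mul _⟩
      add_mem' := fun {a b} ha hb => ⟨⟨fun X hX => by
        rw [add_mul, mul_add, ha.1.1 X hX, hb.1.1 X hX],
        fun X hX => by rw [add_mul, mul_add, ha.1.2 X hX, hb.1.2 X hX]⟩, fun σ => by
          rw [add_mul, ha.2, hb.2, add_zero]⟩
      smul_mem' := fun r a ha => ⟨⟨fun X hX => by
        rw [Matrix.smul_mul, Matrix.mul_smul, ha.1.1 X hX], fun X hX => by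
        rw [Matrix.smul_mul, Matrix.mul_smul, ha.1.2 X hX]⟩, fun σ => by
          rw [Matrix.smul_mul, ha.2, smul_zero]⟩ }
  have key : ∀ Y ∈ C, Y = 0 := by
    refine rational_induction C ?_ ?_ rfl ?_ ?_
    · rintro τ X ⟨h1, h2⟩
      refine ⟨M.Zt_aut h1 τ, fun σ => ?_⟩
      have h3 := congrArg (fun Y : Matrix _ _ ℂ => Y.map (τ : ℂ →+* ℂ)) (h2 (σ.trans τ.symm))
      simp only [Matrix.map_mul] at h3
      have h4 : (M.act (σ.trans τ.symm) φ).e.map (τ : ℂ →+* ℂ) = (M.act σ φ).e := by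
        rw [M.act_e, M.act_e]
        ext i j
        simp
      rw [h4] at h3
      have h5 : (0 : Matrix (Fin g ⊕ Fin g) (Fin g ⊕ Fin g) ℂ).map (τ : ℂ →+* ℂ) = 0 := by
        ext i j
        simp
      rw [h5] at h3
      exact h3
    · rintro u ⟨h1, h2⟩
      have h3 : u = 0 := by
        have h4 := h2 (RingEquiv.refl ℂ)
        exact rat_zero M hD h1 (M.act (RingEquiv.refl ℂ) φ).ne h4
      rw [h3]
      exact cq_zero
    · intro X Y hX hY
      rw [hX, hY, add_zero]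
    · intro c X hX
      rw [hX, smul_zero]
  have h1 : M.ce ε ψ ∈ C := by
    refine ⟨M.ce_central F ψ, fun σ => ?_⟩
    rw [M.ce_mul F, if_neg (hcon σ)]
  have h2 := key _ h1
  have h3 := M.ce_mul F (φ := ψ) (ψ := ψ)
  rw [h2, zero_mul, if_pos (Eqv.refl ψ)] at h3
  exact ψ.ne h3.symm

/-- The relative rank is constant. -/
theorem rank_const (φ ψ : Pr Z) : mu φ + mu (M.bar φ) = mu ψ + mu (M.bar ψ) := by
  obtain ⟨σ, hσ⟩ := transitive M hD φ ψ
  rw [← M.mu_eqv hσ, ← M.mu_eqv (M.eqv_bar hσ), M.mu_act]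

end

section

variable (M : Pol Z) {I : Type} [Fintype I] {ε : I → Pr Z} (F : Pol.Fam ε)
include M F

omit F in
theorem ce_eqv {φ ψ : Pr Z} (h : Eqv φ ψ) : M.ce ε φ = M.ce ε ψ := by
  classical
  unfold Pol.ce
  refine Finset.sum_congr ?_ fun _ _ => rfl
  ext i
  simp only [Finset.mem_filter, Finset.mem_univ, true_and]
  exact ⟨fun h1 => h1.trans h, fun h1 => h1.trans h.symm⟩

/-- The conjugates of the central idempotents. -/
theorem ce_act (σ : ℂ ≃+* ℂ) (φ : Pr Z) :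
    (M.ce ε φ).map (σ : ℂ →+* ℂ) = M.ce ε (M.act σ φ) := by
  classical
  have h1 : ∀ ψ : Pr Z, (M.ce ε φ).map (σ : ℂ →+* ℂ) * ψ.e =
      if Eqv ψ (M.act σ φ) then ψ.e else 0 := by
    intro ψ
    have h2 := congrArg (fun Y : Matrix _ _ ℂ => Y.map (σ : ℂ →+* ℂ))
      (M.ce_mul F (φ := φ) (ψ := M.act σ.symm ψ))
    simp only [Matrix.map_mul] at h2
    have h3 : (M.act σ.symm ψ).e.map (σ : ℂ →+* ℂ) = ψ.e := by
      change (M.act σ (M.act σ.symm ψ)).e = ψ.e
      rw [M.act_symm']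
    rw [h3] at h2
    rw [h2]
    by_cases h4 : Eqv (M.act σ.symm ψ) φ
    · rw [if_pos h4, h3, if_pos]
      have h5 := M.eqv_act h4 σ
      rwa [M.act_symm'] at h5
    · rw [if_neg h4, if_neg]
      · ext i j
        simp
      · intro h5
        apply h4
        have h6 := M.eqv_act h5 σ.symm
        rwa [M.act_symm] at h6
  calc (M.ce ε φ).map (σ : ℂ →+* ℂ) = (M.ce ε φ).map (σ : ℂ →+* ℂ) * ∑ i, (ε i).e := by
        rw [F.sum, mul_one]
  _ = M.ce ε (M.act σ φ) * ∑ i, (ε i).e := by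
    rw [Finset.mul_sum, Finset.mul_sum]
    refine Finset.sum_congr rfl fun i _ => ?_
    rw [h1, M.ce_mul F]
  _ = _ := by rw [F.sum, mul_one]

/-- The number of the members of a class. -/
noncomputable def cnt {I : Type} [Fintype I] (ε : I → Pr Z) (φ : Pr Z) : ℕ :=
  open Classical in (Finset.univ.filter (fun i => Eqv (ε i) φ)).card

omit M F in
theorem cnt_eqv {φ ψ : Pr Z} (h : Eqv φ ψ) : cnt ε φ = cnt ε ψ := by
  classical
  unfold cnt
  congr 1
  ext i
  simp only [Finset.mem_filter, Finset.mem_univ, true_and]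
  exact ⟨fun h1 => h1.trans h, fun h1 => h1.trans h.symm⟩

theorem cnt_pos (φ : Pr Z) : 0 < cnt ε φ := by
  classical
  obtain ⟨i, hi⟩ := M.eqv_family F.sum φ
  exact Finset.card_pos.2 ⟨i, Finset.mem_filter.2 ⟨Finset.mem_univ _, hi⟩⟩

omit F in
theorem trace_ce (φ : Pr Z) : trace (M.ce ε φ) = ((cnt ε φ * (mu φ + mu (M.bar φ)) : ℕ) : ℂ) := by
  classical
  unfold Pol.ce cnt
  rw [trace_sum]
  have h1 : ∀ i ∈ Finset.univ.filter (fun i => Eqv (ε i) φ),
      trace (ε i).e = ((mu φ + mu (M.bar φ) : ℕ) : ℂ) := by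
    intro i hi
    have h2 := (Finset.mem_filter.1 hi).2
    rw [M.trace_e, M.mu_eqv h2, M.mu_eqv (M.eqv_bar h2)]
  rw [Finset.sum_congr rfl h1, Finset.sum_const, nsmul_eq_mul, Nat.cast_mul]

theorem cnt_act (σ : ℂ ≃+* ℂ) (φ : Pr Z) : cnt ε (M.act σ φ) = cnt ε φ := by
  have h1 := trace_ce M (ε := ε) (M.act σ φ)
  rw [← ce_act M F] at h1
  have h2 : trace ((M.ce ε φ).map (σ : ℂ →+* ℂ)) = σ (trace (M.ce ε φ)) :=
    (AddMonoidHom.map_trace (σ : ℂ →+* ℂ).toAddMonoidHom _).symm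
  rw [h2, trace_ce M, map_natCast, M.mu_act] at h1
  have h3 : cnt ε φ * (mu φ + mu (M.bar φ)) = cnt ε (M.act σ φ) * (mu φ + mu (M.bar φ)) := by
    exact_mod_cast h1
  exact (Nat.eq_of_mul_eq_mul_right (M.mu_pos φ) h3).symm

theorem cnt_const {D : Subalgebra ℚ (MQ g)} (hD : Dv Z D) (φ ψ : Pr Z) : cnt ε φ = cnt ε ψ := by
  obtain ⟨σ, hσ⟩ := transitive M hD φ ψ
  rw [← cnt_eqv hσ, cnt_act M F]

end

end Pool.Agent.H943.KS
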