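import Mathlib
import Pool.Agent.H943.KS.Geo1

/-!
# The imaginary quadratic field is central
-/

set_option autoImplicit false
set_option linter.unusedSectionVars false

namespace Pool.Agent.H943.KS

open Matrix Module Pool.Agent.H204R3.CM Pool.Agent.H194R3.CM Pool.Agent.W437.HC
  Pool.Agent.W437.HD Pool.Agent.W437.HQ Pool.Agent.W548.Odd Pool.Agent.TH125 Pool.Agent.Y4
  Pool.Agent.Y4.G Pool.Agent.Y4.K

open Pool.Agent.Y4.H (exists_prims LZ Ct map_smul_aut' D_mem_LZ Dσ_mem_LZ)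

variable {g : ℕ} {Z : Matrix (Fin g) (Fin g) ℂ}

/-- The eigenspace of an endomorphism on the tangent space. -/
def TE (Z : Matrix (Fin g) (Fin g) ℂ) (ξ : MQ g) (k : ℂ) : Submodule ℂ (Fin g → ℂ) where
  carrier := {t | ∀ N : Matrix (Fin g) (Fin g) ℂ, IsEndo Z ξ N → N.mulVec t = k • t}
  zero_mem' := fun M _ => by rw [mulVec_zero, smul_zero]
  add_mem' := fun {a b} ha hb M h => by rw [mulVec_add, ha M h, hb M h, smul_add]
  smul_mem' := fun c a ha M h => by rw [mulVec_smul, ha M h, smul_comm]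

/-- The eigenprojector. -/
noncomputable def pj (ξ : MQ g) (k : ℂ) : Matrix (Fin g ⊕ Fin g) (Fin g ⊕ Fin g) ℂ :=
  (2 : ℂ)⁻¹ • (1 + k⁻¹ • cq ξ)

theorem xi_sq {ξ : MQ g} {d : ℚ} (h : ξ * ξ = -(d • (1 : MQ g))) :
    cq ξ * cq ξ = -((d : ℂ) • 1) := by
  rw [← cq_mul, h, ← neg_smul, cq_smul, cq_one]
  push_cast
  rw [neg_smul]

section

variable {ξ : MQ g} {d : ℚ} (hξ : ξ * ξ = -(d • (1 : MQ g))) {k : ℂ} (hk : k * k = -d) (hk0 : k ≠ 0)
include hξ hk hk0

theorem xi_pj : cq ξ * pj ξ k = k • pj ξ k := by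
  have h1 : k⁻¹ * (d : ℂ) = -k := by
    rw [inv_mul_eq_iff_eq_mul₀ hk0]
    linear_combination hk
  have h2 : k⁻¹ • (-((d : ℂ) • (1 : Matrix (Fin g ⊕ Fin g) (Fin g ⊕ Fin g) ℂ))) = k • 1 := by
    rw [smul_neg, smul_smul, h1, neg_smul, neg_neg]
  unfold pj
  rw [Matrix.mul_smul, mul_add, mul_one, Matrix.mul_smul, xi_sq hξ, h2, smul_comm k (2 : ℂ)⁻¹,
    smul_add k, smul_smul, mul_inv_cancel₀ hk0, one_smul, add_comm]

theorem pj_idem : pj ξ k * pj ξ k = pj ξ k := by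
  nth_rewrite 1 [pj]
  rw [Matrix.smul_mul, add_mul, one_mul, Matrix.smul_mul, xi_pj hξ hk hk0, smul_smul,
    inv_mul_cancel₀ hk0, one_smul, ← two_smul ℂ, smul_smul, inv_mul_cancel₀ two_ne_zero, one_smul]

theorem pj_of {n : Type} [Fintype n] {x : Matrix (Fin g ⊕ Fin g) n ℂ} (h : cq ξ * x = k • x) :
    pj ξ k * x = x := by
  unfold pj
  rw [Matrix.smul_mul, Matrix.add_mul, Matrix.one_mul, Matrix.smul_mul, h, smul_smul,
    inv_mul_cancel₀ hk0, one_smul, ← two_smul ℂ, smul_smul, inv_mul_cancel₀ two_ne_zero, one_smul]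

theorem pj_of_neg {n : Type} [Fintype n] {x : Matrix (Fin g ⊕ Fin g) n ℂ}
    (h : cq ξ * x = (-k) • x) : pj ξ k * x = 0 := by
  unfold pj
  rw [Matrix.smul_mul, Matrix.add_mul, Matrix.one_mul, Matrix.smul_mul, h, smul_smul]
  rw [mul_neg, inv_mul_cancel₀ hk0, neg_smul, one_smul, add_neg_cancel, smul_zero]

variable (M : Pol Z) {N0 : Matrix (Fin g) (Fin g) ℂ} (hN0 : IsEndo Z ξ N0)
include M hN0

omit hξ hk hk0 in
theorem D_pj : DZ Z * pj ξ k = pj ξ k * DZ Z := by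
  have h1 := endo_comm M.isUnit hN0
  unfold pj
  rw [Matrix.mul_smul, Matrix.smul_mul, mul_add, add_mul, mul_one, one_mul, Matrix.mul_smul,
    Matrix.smul_mul, h1]

/-- The projector onto the eigenspace in the tangent space. -/
theorem PT_idem : ((2 : ℂ)⁻¹ • ((1 + DZ Z) * pj ξ k)) * ((2 : ℂ)⁻¹ • ((1 + DZ Z) * pj ξ k)) =
    (2 : ℂ)⁻¹ • ((1 + DZ Z) * pj ξ k) := by
  have h1 := D_pj (k := k) M hN0
  have h2 := pj_idem hξ hk hk0
  have h3 := DZ_sq M.isUnit
  have h4 : (1 + DZ Z) * (1 + DZ Z) = (2 : ℂ) • (1 + DZ Z) := by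
    rw [mul_add, mul_one, add_mul, one_mul, h3, two_smul]
    abel
  have h5 : pj ξ k * (1 + DZ Z) = (1 + DZ Z) * pj ξ k := by
    rw [mul_add, add_mul, mul_one, one_mul, h1]
  rw [Matrix.smul_mul, Matrix.mul_smul, mul_assoc, ← mul_assoc (pj ξ k), h5, mul_assoc _ (pj ξ k), h2,
    ← mul_assoc, h4, Matrix.smul_mul, smul_smul (2 : ℂ)⁻¹ 2, inv_mul_cancel₀ two_ne_zero, one_smul]

theorem dim_TE : ((finrank ℂ (TE Z ξ k) : ℕ) : ℂ) = trace ((2 : ℂ)⁻¹ • ((1 + DZ Z) * pj ξ k)) := by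
  obtain ⟨PT, hPT⟩ : ∃ PT, PT = (2 : ℂ)⁻¹ • ((1 + DZ Z) * pj ξ k) := ⟨_, rfl⟩
  have hid : PT * PT = PT := by rw [hPT]; exact PT_idem hξ hk hk0 M hN0
  rw [← hPT, trace_idemM hid]
  congr 1
  have h1 := D_pj (k := k) M hN0
  have h3 := DZ_sq M.isUnit
  have hDP : DZ Z * PT = PT := by
    rw [hPT, Matrix.mul_smul, ← mul_assoc, mul_add, mul_one, h3, add_comm (DZ Z)]
  have hxP : cq ξ * PT = k • PT := by
    rw [hPT, Matrix.mul_smul, ← mul_assoc, mul_add, mul_one, endo_comm M.isUnit hN0,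
      ← one_add_mul, mul_assoc, xi_pj hξ hk hk0, Matrix.mul_smul, smul_comm]
  have hmem : ∀ x : Fin g ⊕ Fin g → ℂ, x ∈ LinearMap.range (mulVecLin PT) ↔
      DZ Z *ᵥ x = x ∧ cq ξ *ᵥ x = k • x := by
    intro x
    constructor
    · rintro ⟨y, rfl⟩
      refine ⟨?_, ?_⟩
      · rw [mulVecLin_apply, mulVec_mulVec, hDP]
      · rw [mulVecLin_apply, mulVec_mulVec, hxP, smul_mulVec]
    · rintro ⟨h4, h5⟩
      have h6 : pj ξ k *ᵥ x = x := by
        have h7 := pj_of hξ hk hk0 (n := Unit) (x := Matrix.of fun i (_ : Unit) => x i) (by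
          ext i j
          exact congrFun h5 i)
        funext i
        exact congrFun (congrFun h7 i) ()
      refine ⟨x, ?_⟩
      rw [mulVecLin_apply, hPT, smul_mulVec, ← mulVec_mulVec, h6, add_mulVec,
        one_mulVec, h4, ← two_smul ℂ, smul_smul, inv_mul_cancel₀ two_ne_zero, one_smul]
  set f := (mulVecLin (PZ Z)).domRestrict (LinearMap.range (mulVecLin PT)) with hf
  have hinj : Function.Injective f := by
    rw [← LinearMap.ker_eq_bot, LinearMap.ker_eq_bot']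
    rintro ⟨x, hx⟩ h
    apply Subtype.ext
    exact eq_zero_of_PZ M.isUnit ((hmem x).1 hx).1 h
  have hrange : LinearMap.range f = TE Z ξ k := by
    ext t
    constructor
    · rintro ⟨⟨x, hx⟩, rfl⟩ N hN
      change N *ᵥ (PZ Z *ᵥ x) = k • (PZ Z *ᵥ x)
      have h1 := endo_PZ hN
      rw [mulVec_mulVec, ← h1, ← mulVec_mulVec, ((hmem x).1 hx).2, mulVec_smul]
    · intro ht
      obtain ⟨x, hx⟩ : ∃ x, x = (2 : ℂ)⁻¹ • ((1 + DZ Z) *ᵥ (r10 g *ᵥ t)) := ⟨_, rfl⟩
      have h1 : DZ Z *ᵥ x = x := by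
        rw [hx, mulVec_smul, mulVec_mulVec, mul_add, mul_one, DZ_sq M.isUnit, add_comm (DZ Z)]
      have h2 : PZ Z *ᵥ x = t := by
        rw [hx, mulVec_smul, mulVec_mulVec, Matrix.mul_add, Matrix.mul_one, PZ_DZ M.isUnit,
          mulVec_mulVec, Matrix.add_mul, PZ_r10, add_mulVec, one_mulVec, ← two_smul ℂ, smul_smul,
          inv_mul_cancel₀ two_ne_zero, one_smul]
      have h3 : cq ξ *ᵥ x = k • x := by
        rw [← sub_eq_zero]
        have hcomm := endo_comm M.isUnit hN0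
        refine eq_zero_of_PZ M.isUnit ?_ ?_
        · rw [mulVec_sub, mulVec_mulVec, ← hcomm, ← mulVec_mulVec, mulVec_smul, h1]
        · have h4 := endo_PZ hN0
          rw [mulVec_sub, mulVec_mulVec, h4, ← mulVec_mulVec, h2, mulVec_smul, h2, ht _ hN0,
            sub_self]
      exact ⟨⟨x, (hmem x).2 ⟨h1, h3⟩⟩, h2⟩
  rw [← hrange, LinearMap.finrank_range_of_inj hinj]

end

section

variable (M : Pol Z)
include M

theorem trace_D : trace (DZ Z) = 0 := by
  obtain ⟨I, hI, ε, f1, f2, f3⟩ := M.exists_family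
  have h1 : trace (DZ Z) = ∑ i, ((mu (ε i) : ℂ) - mu (M.bar (ε i))) := by
    calc trace (DZ Z) = trace (DZ Z * ∑ i, (ε i).e) := by rw [f3, mul_one]
    _ = ∑ i, trace (pr (ε i) - qr (ε i)) := by
      rw [Finset.mul_sum, trace_sum]
      exact Finset.sum_congr rfl fun i _ => by rw [pr_sub_qr']
    _ = _ := Finset.sum_congr rfl fun i _ => by rw [trace_sub, M.trace_pr, M.trace_qr]
  have h2 : ∑ i, (M.bar (ε i)).e = 1 := by
    have h3 : ∑ i, (M.bar (ε i)).e = -(Om g ℂ * (∑ i, (ε i).e)ᵀ * Om g ℂ) := by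
      rw [Matrix.transpose_sum, Finset.mul_sum, Finset.sum_mul, ← Finset.sum_neg_distrib]
      rfl
    rw [h3, f3, transpose_one, mul_one]
    have hO2 : Om g ℂ * Om g ℂ = -1 := Om_sq ℂ
    rw [hO2, neg_neg]
  have h3 : trace (DZ Z) = ∑ i, ((mu (M.bar (ε i)) : ℂ) - mu (ε i)) := by
    calc trace (DZ Z) = trace (DZ Z * ∑ i, (M.bar (ε i)).e) := by rw [h2, mul_one]
    _ = ∑ i, trace (pr (M.bar (ε i)) - qr (M.bar (ε i))) := by
      rw [Finset.mul_sum, trace_sum]
      exact Finset.sum_congr rfl fun i _ => by rw [pr_sub_qr']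
    _ = _ := Finset.sum_congr rfl fun i _ => by
      rw [trace_sub, M.trace_pr, M.trace_qr, M.bar_bar]
  have h4 : trace (DZ Z) = - trace (DZ Z) := by
    nth_rewrite 1 [h1]
    rw [h3, ← Finset.sum_neg_distrib]
    exact Finset.sum_congr rfl fun i _ => by ring
  have h5 : (2 : ℂ) * trace (DZ Z) = 0 := by linear_combination h4
  exact (mul_eq_zero.1 h5).resolve_left two_ne_zero

theorem Zt_closed {a b : Matrix (Fin g ⊕ Fin g) (Fin g ⊕ Fin g) ℂ} (ha : M.Zt a) (hb : M.Zt b) :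
    M.Zt (a + b) :=
  ⟨fun X hX => by rw [add_mul, mul_add, ha.1 X hX, hb.1 X hX],
    fun X hX => by rw [add_mul, mul_add, ha.2 X hX, hb.2 X hX]⟩

theorem Zt_smul {a : Matrix (Fin g ⊕ Fin g) (Fin g ⊕ Fin g) ℂ} (ha : M.Zt a) (r : ℂ) :
    M.Zt (r • a) :=
  ⟨fun X hX => by rw [Matrix.smul_mul, Matrix.mul_smul, ha.1 X hX],
    fun X hX => by rw [Matrix.smul_mul, Matrix.mul_smul, ha.2 X hX]⟩

theorem Zt_mul {a b : Matrix (Fin g ⊕ Fin g) (Fin g ⊕ Fin g) ℂ} (ha : M.Zt a) (hb : M.Zt b) :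
    M.Zt (a * b) :=
  ⟨InCm.mul ha.1 hb.1, fun X hX => by rw [mul_assoc, hb.2 X hX, ← mul_assoc, ha.2 X hX, mul_assoc]⟩

theorem Zt_one : M.Zt 1 := ⟨fun X _ => by rw [one_mul, mul_one], fun X _ => by
  rw [one_mul, mul_one]⟩

theorem Zt_inv {a b : Matrix (Fin g ⊕ Fin g) (Fin g ⊕ Fin g) ℂ} (ha : M.Zt a) (h : a * b = 1) :
    M.Zt b := by
  have h' : b * a = 1 := mul_eq_one_comm.1 h
  have key : ∀ X, a * X = X * a → b * X = X * b := by
    intro X hX
    calc b * X = b * (X * a) * b := by rw [mul_assoc, mul_assoc, h, mul_one]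
    _ = (b * a) * X * b := by rw [← hX]; noncomm_ring
    _ = X * b := by rw [h', one_mul]
  exact ⟨fun X hX => key X (ha.1 X hX), fun X hX => key X (ha.2 X hX)⟩

/-- The scalar by which a central element acts on a class. -/
theorem z_ce {I : Type} [Fintype I] {ε : I → Pr Z} {z : Matrix (Fin g ⊕ Fin g) (Fin g ⊕ Fin g) ℂ}
    (hz : M.Zt z) {φ : Pr Z} {l : ℂ} (h : z * φ.e = l • φ.e) : z * M.ce ε φ = l • M.ce ε φ := by
  classical
  unfold Pol.ce
  rw [Finset.mul_sum, Finset.smul_sum]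
  refine Finset.sum_congr rfl fun i hi => ?_
  obtain ⟨a, b, hab⟩ := (Finset.mem_filter.1 hi).2
  calc z * (ε i).e = z * (b * a) := by rw [hab.ba]
  _ = b * (z * φ.e) * a := by
    rw [← mul_assoc, hz.2 b hab.cb, mul_assoc b z, mul_assoc b (z * φ.e), mul_assoc z, hab.la]
  _ = l • (ε i).e := by
    rw [h, Matrix.mul_smul, Matrix.smul_mul, mul_assoc, hab.la, hab.ba]

end

section

variable (M : Pol Z) {D : Subalgebra ℚ (MQ g)} (hD : Dv Z D) (hg : 0 < g)
  {ξ : MQ g} (hξD : ξ ∈ D) (hξc : ∀ x ∈ D, ξ * x = x * ξ) {d : ℚ}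
  (hξ : ξ * ξ = -(d • (1 : MQ g))) {k : ℂ} (hk : k * k = -d) (hk0 : k ≠ 0)
include M hD hg hξD hξc hξ hk hk0

/-- The projection of `ξ` to the centre. -/
theorem exists_b : ∃ b : MQ g, M.Zt (cq b) ∧ ∀ z, M.Zt z →
    trace (cq ξ * z) = trace (cq b * z) := by
  let Zq : Submodule ℚ (MQ g) :=
    { carrier := {a | M.Zt (cq a)}
      zero_mem' := by
        change M.Zt (cq 0)
        rw [cq_zero]
        exact ⟨fun X _ => by rw [zero_mul, mul_zero], fun X _ => by rw [zero_mul, mul_zero]⟩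
      add_mem' := fun {a b} ha hb => by
        change M.Zt (cq (a + b))
        rw [cq_add]
        exact Zt_closed M ha hb
      smul_mem' := fun r a ha => by
        change M.Zt (cq (r • a))
        rw [cq_smul]
        exact Zt_smul M ha r }
  let B : Zq →ₗ[ℚ] Module.Dual ℚ Zq :=
    { toFun := fun b =>
        { toFun := fun a => trace (b.1 * a.1)
          map_add' := fun x y => by rw [Submodule.coe_add, mul_add, trace_add]
          map_smul' := fun r x => by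
            rw [Submodule.coe_smul, Matrix.mul_smul, trace_smul]
            rfl }
      map_add' := fun x y => by
        ext a
        change trace ((x.1 + y.1) * a.1) = trace (x.1 * a.1) + trace (y.1 * a.1)
        rw [add_mul, trace_add]
      map_smul' := fun r x => by
        ext a
        change trace ((r • x.1) * a.1) = r • trace (x.1 * a.1)
        rw [Matrix.smul_mul, trace_smul] }
  have hB : Function.Injective B := by
    rw [injective_iff_map_eq_zero]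
    intro b hb
    by_contra h0
    obtain ⟨Y, hY⟩ := hD.com b.1 (M.endo_of_Ct b.2.1) (comm_of_Zt M hD b.2)
      (fun h => h0 (Subtype.ext h))
    have hYZ : Y ∈ Zq := by
      change M.Zt (cq Y)
      exact Zt_inv M b.2 (by rw [← cq_mul, hY, cq_one])
    have h1 := LinearMap.congr_fun hb ⟨Y, hYZ⟩
    change trace (b.1 * Y) = 0 at h1
    rw [hY, trace_one, Fintype.card_sum, Fintype.card_fin] at h1
    have h2 : g + g = 0 := by exact_mod_cast h1
    omega
  have hBs : Function.Surjective B := by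
    rw [← LinearMap.range_eq_top]
    apply Submodule.eq_top_of_finrank_eq
    rw [LinearMap.finrank_range_of_inj hB, Subspace.dual_finrank_eq]
  obtain ⟨b, hb⟩ := hBs
    { toFun := fun a => trace (ξ * a.1)
      map_add' := fun x y => by rw [Submodule.coe_add, mul_add, trace_add]
      map_smul' := fun r x => by
        rw [Submodule.coe_smul, Matrix.mul_smul, trace_smul]
        rfl }
  refine ⟨b.1, b.2, ?_⟩
  let C : Submodule ℂ (Matrix (Fin g ⊕ Fin g) (Fin g ⊕ Fin g) ℂ) :=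
    { carrier := {c | M.Zt c}
      zero_mem' := ⟨fun X _ => by rw [zero_mul, mul_zero], fun X _ => by rw [zero_mul, mul_zero]⟩
      add_mem' := fun {a b} ha hb => Zt_closed M ha hb
      smul_mem' := fun r a ha => Zt_smul M ha r }
  have key : ∀ Y ∈ C, trace (cq ξ * Y) = trace (cq b.1 * Y) := by
    refine rational_induction C ?_ ?_ ?_ ?_ ?_
    · intro σ Y h1
      exact M.Zt_aut h1 σ
    · intro u h
      have h1 := LinearMap.congr_fun hb (⟨u, h⟩ : Zq)
      change trace (b.1 * u) = trace (ξ * u) at h1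
      change trace (cq ξ * cq u) = trace (cq b.1 * cq u)
      rw [← cq_mul, ← cq_mul, trace_cq, trace_cq, h1]
    · rw [mul_zero, mul_zero]
    · intro X Y hX hY
      rw [mul_add, mul_add, trace_add, trace_add, hX, hY]
    · intro c X hX
      rw [Matrix.mul_smul, Matrix.mul_smul, trace_smul, trace_smul, hX]
  exact fun z hz => key z hz

/-- The trace of `ξ` on a class. -/
theorem trace_xi_ce {I : Type} [Fintype I] {ε : I → Pr Z} (F : Pol.Fam ε) (φ : Pr Z) :
    ∃ a b : ℕ, trace (cq ξ * M.ce ε φ) = k * ((a : ℂ) - b) := by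
  obtain ⟨N0, hN0⟩ := hD.endo ξ hξD
  have hc := M.ce_central F φ
  have hcx : M.ce ε φ * cq ξ = cq ξ * M.ce ε φ := hc.2 _ (M.Ct_of_endo hN0)
  have key : ∀ k : ℂ, k * k = -d → k ≠ 0 → ∃ a : ℕ, trace (pj ξ k * M.ce ε φ) = a := by
    intro k hk hk0
    have h1 : pj ξ k * M.ce ε φ = M.ce ε φ * pj ξ k := by
      unfold pj
      rw [Matrix.smul_mul, Matrix.mul_smul, add_mul, mul_add, one_mul, mul_one, Matrix.smul_mul,
        Matrix.mul_smul, hcx]
    have h2 : (pj ξ k * M.ce ε φ) * (pj ξ k * M.ce ε φ) = pj ξ k * M.ce ε φ := by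
      calc (pj ξ k * M.ce ε φ) * (pj ξ k * M.ce ε φ) =
          pj ξ k * (M.ce ε φ * pj ξ k) * M.ce ε φ := by noncomm_ring
      _ = (pj ξ k * pj ξ k) * (M.ce ε φ * M.ce ε φ) := by rw [← h1]; noncomm_ring
      _ = _ := by rw [pj_idem hξ hk hk0, M.ce_idem F]
    exact ⟨_, trace_idemM h2⟩
  obtain ⟨a, ha⟩ := key k hk hk0
  obtain ⟨b, hb⟩ := key (-k) (by rw [neg_mul_neg, hk]) (neg_ne_zero.2 hk0)
  refine ⟨a, b, ?_⟩
  rw [← ha, ← hb, ← trace_sub, ← sub_mul]
  have h1 : pj ξ k - pj ξ (-k) = k⁻¹ • cq ξ := by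
    unfold pj
    rw [← smul_sub, add_sub_add_left_eq_sub, inv_neg, neg_smul, sub_neg_eq_add, ← two_smul ℂ,
      smul_smul, inv_mul_cancel₀ two_ne_zero, one_smul]
  rw [h1, Matrix.smul_mul, trace_smul, smul_eq_mul, ← mul_assoc, mul_inv_cancel₀ hk0, one_mul]

/-- **The field generated by `ξ` is central.** -/
theorem central (hN : 2 * finrank ℂ (TE Z ξ k) ≠ g) : M.Zt (cq ξ) := by
  classical
  by_contra hcen
  obtain ⟨N0, hN0⟩ := hD.endo ξ hξD
  obtain ⟨I, hI, ε, f1, f2, f3⟩ := M.exists_family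
  have F : Pol.Fam ε := ⟨f1, f2, f3⟩
  have hIne : Nonempty I := by
    by_contra hI0
    rw [not_nonempty_iff] at hI0
    rw [Finset.univ_eq_empty, Finset.sum_empty] at f3
    have h1 : trace (1 : Matrix (Fin g ⊕ Fin g) (Fin g ⊕ Fin g) ℂ) = 0 := by
      rw [← f3, trace_zero]
    rw [trace_one, Fintype.card_sum, Fintype.card_fin] at h1
    have h2 : g + g = 0 := by exact_mod_cast h1
    omega
  obtain ⟨b, hbZ, hb⟩ := exists_b M hD hg hξD hξc hξ hk hk0
  have hbD : ∀ x ∈ D, b * x = x * b := comm_of_Zt M hD hbZ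
  have hdC : (d : ℂ) ≠ 0 := by
    intro h0
    apply hk0
    have h1 : k * k = 0 := by rw [hk, h0, neg_zero]
    exact mul_self_eq_zero.1 h1
  -- `b` is a rational multiple of a square root of `-d`
  obtain ⟨i0⟩ := hIne
  obtain ⟨q, hq⟩ : ∃ q : ℚ, b * b = -((d * q * q) • (1 : MQ g)) := by
    obtain ⟨m, m', hm⟩ := trace_xi_ce M hD hg hξD hξc hξ hk hk0 F (ε i0)
    obtain ⟨l, hl⟩ := M.exists_scalar hbZ (ε i0)
    have h1 := hb _ (M.ce_central F (ε i0))
    rw [z_ce M hbZ hl, trace_smul, smul_eq_mul, trace_ce M, hm] at h1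
    obtain ⟨s, hs⟩ : ∃ s : ℕ, s = cnt ε (ε i0) * (mu (ε i0) + mu (M.bar (ε i0))) := ⟨_, rfl⟩
    have hs0 : (s : ℂ) ≠ 0 := by
      rw [hs]
      exact Nat.cast_ne_zero.2 (Nat.mul_pos (cnt_pos M F _) (M.mu_pos _)).ne'
    rw [← hs] at h1
    have h2 : l = k * ((((m : ℚ) - m') / s : ℚ) : ℂ) := by
      push_cast
      field_simp
      linear_combination -h1
    obtain ⟨q, hqq⟩ : ∃ q : ℚ, q = ((m : ℚ) - m') / s := ⟨_, rfl⟩
    rw [← hqq] at h2
    refine ⟨q, ?_⟩
    have h3 : M.Zt (cq (b * b + (d * q * q) • (1 : MQ g))) := by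
      rw [cq_add, cq_mul, cq_smul, cq_one]
      exact Zt_closed M (Zt_mul M hbZ hbZ) (Zt_smul M (Zt_one M) _)
    have h4 : cq (b * b + (d * q * q) • (1 : MQ g)) * (ε i0).e = 0 := by
      rw [cq_add, cq_mul, cq_smul, cq_one, add_mul, mul_assoc, hl, Matrix.mul_smul, hl, smul_smul,
        Matrix.smul_mul, one_mul, ← add_smul, h2]
      push_cast
      have h5 : k * (q : ℂ) * (k * q) + d * q * q = 0 := by linear_combination (q : ℂ) ^ 2 * hk
      rw [h5, zero_smul]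
    exact eq_neg_of_add_eq_zero_left (rat_zero M hD h3 (ε i0).ne h4)
  have hb0 : b = 0 := by
    by_cases hq0 : q = 0
    · rw [hq0, mul_zero, zero_smul, neg_zero] at hq
      rcases hD.mul_eq_zero (M.endo_of_Ct hbZ.1) hbD hq with h1 | h1 <;> exact h1
    · exfalso
      have hbx : b * ξ = ξ * b := hbD ξ hξD
      have h1 : (ξ - q⁻¹ • b) * (ξ + q⁻¹ • b) = 0 := by
        rw [sub_mul, mul_add, mul_add, hξ, Matrix.smul_mul, Matrix.smul_mul, Matrix.mul_smul,
          Matrix.mul_smul, hq, hbx, smul_neg, smul_neg, smul_smul, smul_smul]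
        have h2 : q⁻¹ * q⁻¹ * (d * q * q) = d := by field_simp
        rw [h2]
        abel
      have h2 : ∀ x ∈ D, (ξ - q⁻¹ • b) * x = x * (ξ - q⁻¹ • b) := by
        intro x hx
        rw [sub_mul, mul_sub, hξc x hx, Matrix.smul_mul, Matrix.mul_smul, hbD x hx]
      have h4 : Ct Z (cq (ξ - q⁻¹ • b)) := by
        intro X hX
        rw [cq_sub, cq_smul, sub_mul, mul_sub, M.Ct_of_endo hN0 X hX, Matrix.smul_mul,
          Matrix.mul_smul, hbZ.1 X hX]
      rcases hD.mul_eq_zero (M.endo_of_Ct h4) h2 h1 with h3 | h3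
      · apply hcen
        rw [sub_eq_zero.1 h3, cq_smul]
        exact Zt_smul M hbZ _
      · apply hcen
        rw [eq_neg_of_add_eq_zero_left h3, ← neg_smul, cq_smul]
        exact Zt_smul M hbZ _
  have htr : ∀ φ : Pr Z, trace (cq ξ * M.ce ε φ) = 0 := by
    intro φ
    rw [hb _ (M.ce_central F φ), hb0, cq_zero, zero_mul, trace_zero]
  -- the trace on the tangent space
  have hxC : Ct Z (cq ξ) := M.Ct_of_endo hN0
  choose lam hlam using fun i => (ε i).prim (cq ξ) hxC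
  have h1 : ∀ i, trace (cq ξ * (ε i).e) = lam i * ((mu (ε i) + mu (M.bar (ε i)) : ℕ) : ℂ) := by
    intro i
    have h0 : lam i * trace (ε i).e = trace (lam i • (ε i).e) := by rw [trace_smul, smul_eq_mul]
    rw [← M.trace_e, h0, ← hlam i, trace_mul_comm (_ * _) (ε i).e,
      ← mul_assoc, (ε i).idem, trace_mul_comm]
  have h2 : ∀ i, trace (cq ξ * (1 + DZ Z) * (ε i).e) = lam i * (2 * (mu (ε i) : ℂ)) := by
    intro i
    have hDe : DZ Z * (ε i).e = (ε i).e * DZ Z := comm_LZ (ε i) _ D_mem_LZ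
    have h3 : trace ((1 + DZ Z) * (ε i).e) = 2 * (mu (ε i) : ℂ) := by
      rw [← M.trace_pr, Pool.Agent.Y4.K.pr, trace_smul, smul_eq_mul, ← mul_assoc,
        mul_inv_cancel₀ two_ne_zero, one_mul]
    have h0 : lam i * trace ((1 + DZ Z) * (ε i).e) = trace ((1 + DZ Z) * (lam i • (ε i).e)) := by
      rw [Matrix.mul_smul, trace_smul, smul_eq_mul]
    rw [← h3, h0, ← hlam i]
    have h4 : (1 + DZ Z) * ((ε i).e * cq ξ * (ε i).e) =
        (ε i).e * ((1 + DZ Z) * cq ξ * (ε i).e) := by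
      rw [add_mul, one_mul, ← mul_assoc, ← mul_assoc, hDe, add_mul, add_mul, one_mul, mul_add]
      noncomm_ring
    rw [h4, trace_mul_comm (ε i).e, mul_assoc _ (ε i).e, (ε i).idem]
    congr 2
    rw [mul_add, add_mul, mul_one, one_mul, endo_comm M.isUnit hN0]
  have h3 : trace (cq ξ * (1 + DZ Z)) = ∑ i, lam i * (2 * (mu (ε i) : ℂ)) := by
    rw [← Finset.sum_congr rfl fun i _ => h2 i, ← trace_sum, ← Finset.mul_sum, f3, mul_one]
  have h4 : ∀ φ : Pr Z, ∑ i ∈ Finset.univ.filter (fun i => Eqv (ε i) φ), lam i = 0 := by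
    intro φ
    have h5 := htr φ
    have h6 : M.ce ε φ = ∑ i ∈ Finset.univ.filter (fun i => Eqv (ε i) φ), (ε i).e := by
      unfold Pol.ce
      refine Finset.sum_congr ?_ fun _ _ => rfl
      ext i
      simp only [Finset.mem_filter]
    rw [h6, Finset.mul_sum, trace_sum, Finset.sum_congr rfl fun i _ => h1 i,
      Finset.sum_congr rfl fun i _ => by rw [rank_const M hD (ε i) φ], ← Finset.sum_mul] at h5
    exact (mul_eq_zero.1 h5).resolve_right (Nat.cast_ne_zero.2 (M.mu_pos φ).ne')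
  have h5 : (cnt ε (ε i0) : ℂ) * ∑ i, lam i * (2 * (mu (ε i) : ℂ)) = 0 := by
    have h6 : ∑ j, (2 * (mu (ε j) : ℂ)) * ∑ i ∈ Finset.univ.filter (fun i => Eqv (ε i) (ε j)),
        lam i = 0 := Finset.sum_eq_zero fun j _ => by rw [h4, mul_zero]
    rw [← h6, Finset.mul_sum]
    have h7 : ∀ j, (2 * (mu (ε j) : ℂ)) * ∑ i ∈ Finset.univ.filter (fun i => Eqv (ε i) (ε j)), lam i =
        ∑ i, if Eqv (ε i) (ε j) then (2 * (mu (ε j) : ℂ)) * lam i else 0 := by
      intro j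
      rw [Finset.mul_sum, Finset.sum_filter]
    rw [Finset.sum_congr rfl fun j _ => h7 j, Finset.sum_comm]
    refine Finset.sum_congr rfl fun i _ => ?_
    have h8 : ∀ j, (if Eqv (ε i) (ε j) then (2 * (mu (ε j) : ℂ)) * lam i else 0) =
        if Eqv (ε j) (ε i) then (2 * (mu (ε i) : ℂ)) * lam i else 0 := by
      intro j
      by_cases h9 : Eqv (ε i) (ε j)
      · rw [if_pos h9, if_pos h9.symm, M.mu_eqv h9]
      · rw [if_neg h9, if_neg fun h10 => h9 h10.symm]
    rw [Finset.sum_congr rfl fun j _ => h8 j, ← Finset.sum_filter, Finset.sum_const,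
      nsmul_eq_mul, cnt_const M F hD (ε i0) (ε i)]
    have h9 : ((Finset.univ.filter (fun j => Eqv (ε j) (ε i))).card : ℂ) = cnt ε (ε i) := by
      unfold cnt
      congr 2
    rw [h9]
    ring
  have h6 : trace (cq ξ * (1 + DZ Z)) = 0 := by
    rw [h3]
    exact (mul_eq_zero.1 h5).resolve_left (Nat.cast_ne_zero.2 (cnt_pos M F _).ne')
  apply hN
  have h7 := dim_TE hξ hk hk0 M hN0
  have h8 : trace ((2 : ℂ)⁻¹ • ((1 + DZ Z) * pj ξ k)) = (g : ℂ) / 2 := by
    have h9 : (1 + DZ Z) * pj ξ k = (2 : ℂ)⁻¹ • ((1 + DZ Z) + k⁻¹ • (cq ξ * (1 + DZ Z))) := by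
      unfold pj
      rw [Matrix.mul_smul, mul_add, mul_one, Matrix.mul_smul]
      congr 3
      rw [add_mul, one_mul, mul_add, mul_one, endo_comm M.isUnit hN0]
    rw [h9, trace_smul, trace_smul, trace_add, trace_smul, h6, smul_zero, add_zero, trace_add,
      trace_D M, add_zero, trace_one, Fintype.card_sum, Fintype.card_fin, smul_eq_mul, smul_eq_mul]
    push_cast
    ring
  rw [h8] at h7
  have h9 : ((2 * finrank ℂ (TE Z ξ k) : ℕ) : ℂ) = g := by
    push_cast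
    rw [h7]
    ring
  exact_mod_cast h9

end

end Pool.Agent.H943.KS
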