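import Mathlib
import Pool.Agent.H943.KS.Geo2
import Pool.Agent.H943.KS.Comb
import Pool.Agent.H943.KS.Deg

/-!
# The classes of the primitive idempotents form a signature
-/

set_option autoImplicit false
set_option linter.unusedSectionVars false

namespace Pool.Agent.H943.KS

open Matrix Module Pool.Agent.H204R3.CM Pool.Agent.H194R3.CM Pool.Agent.W437.HC
  Pool.Agent.W437.HD Pool.Agent.W437.HQ Pool.Agent.W548.Odd Pool.Agent.TH125 Pool.Agent.Y4
  Pool.Agent.Y4.G Pool.Agent.Y4.K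

open Pool.Agent.Y4.H (exists_prims LZ Ct map_smul_aut' D_mem_LZ Dσ_mem_LZ)

variable {g : ℕ} {Z : Matrix (Fin g) (Fin g) ℂ}

/-- The equivalence of primitive idempotents. -/
def prSetoid (Z : Matrix (Fin g) (Fin g) ℂ) : Setoid (Pr Z) where
  r := Eqv
  iseqv := ⟨Eqv.refl, Eqv.symm, Eqv.trans⟩

/-- The classes of primitive idempotents. -/
def Cl (Z : Matrix (Fin g) (Fin g) ℂ) : Type := Quotient (prSetoid Z)

/-- The class of a primitive idempotent. -/
def cl (φ : Pr Z) : Cl Z := Quotient.mk (prSetoid Z) φ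

theorem cl_eq {φ ψ : Pr Z} : cl φ = cl ψ ↔ Eqv φ ψ :=
  ⟨fun h => Quotient.exact (s := prSetoid Z) h, fun h => Quotient.sound (s := prSetoid Z) h⟩

theorem cl_surj (x : Cl Z) : ∃ φ : Pr Z, cl φ = x := Quotient.exists_rep x

section

variable (M : Pol Z)
include M

theorem cl_finite : Finite (Cl Z) := by
  obtain ⟨I, hI, ε, f1, f2, f3⟩ := M.exists_family
  refine Finite.of_surjective (fun i : I => cl (ε i)) ?_
  intro x
  obtain ⟨φ, rfl⟩ := cl_surj x
  obtain ⟨i, hi⟩ := M.eqv_family f3 φ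
  exact ⟨i, cl_eq.2 hi⟩

/-- The action of the automorphisms on the classes. -/
@[reducible] noncomputable def clAct : MulAction (RingAut ℂ) (Cl Z) where
  smul σ x := Quotient.map' (s₁ := prSetoid Z) (s₂ := prSetoid Z) (M.act σ)
    (fun _ _ h => M.eqv_act h σ) x
  one_smul x := by
    obtain ⟨φ, rfl⟩ := cl_surj x
    change cl (M.act 1 φ) = cl φ
    congr 1
  mul_smul σ τ x := by
    obtain ⟨φ, rfl⟩ := cl_surj x
    change cl (M.act (σ * τ) φ) = cl (M.act σ (M.act τ φ))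
    congr 1

theorem smul_cl (σ : RingAut ℂ) (φ : Pr Z) :
    (clAct M).toSMul.smul σ (cl φ) = cl (M.act σ φ) := rfl

/-- Complex conjugation on the classes. -/
noncomputable def clBar (x : Cl Z) : Cl Z :=
  Quotient.map' (s₁ := prSetoid Z) (s₂ := prSetoid Z) M.bar (fun _ _ h => M.eqv_bar h) x

theorem bar_cl (φ : Pr Z) : clBar M (cl φ) = cl (M.bar φ) := rfl

/-- The relative multiplicity of a class. -/
noncomputable def clMu (x : Cl Z) : ℕ :=
  Quotient.liftOn' (s₁ := prSetoid Z) x mu (fun _ _ h => M.mu_eqv h)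

theorem mu_cl (φ : Pr Z) : clMu M (cl φ) = mu φ := rfl

/-- The classes on which `ξ` is the scalar `k`. -/
def clP (_M : Pol Z) (ξ : MQ g) (k : ℂ) (x : Cl Z) : Prop :=
  ∀ φ : Pr Z, cl φ = x → cq ξ * φ.e = k • φ.e

section

variable {ξ : MQ g} (hz : M.Zt (cq ξ))
include hz

theorem scal_eqv {φ ψ : Pr Z} (h : Eqv φ ψ) {l : ℂ} (hl : cq ξ * φ.e = l • φ.e) :
    cq ξ * ψ.e = l • ψ.e := by
  obtain ⟨a, b, h⟩ := h
  rw [← h.ab, ← mul_assoc, hz.2 a h.ca, mul_assoc, ← h.lb, ← mul_assoc _ φ.e, hl,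
    Matrix.smul_mul, Matrix.mul_smul, h.lb]

theorem clP_cl {φ : Pr Z} {k : ℂ} : clP M ξ k (cl φ) ↔ cq ξ * φ.e = k • φ.e :=
  ⟨fun h => h φ rfl, fun h _ hψ => scal_eqv M hz (cl_eq.1 hψ).symm h⟩

omit hz M in
theorem scal_uniq {φ : Pr Z} {k l : ℂ} (h : k • φ.e = l • φ.e) : k = l := by
  have h1 : (k - l) • φ.e = 0 := by rw [sub_smul, h, sub_self]
  exact sub_eq_zero.1 ((smul_eq_zero.1 h1).resolve_right φ.ne)

omit hz in
theorem scal_act {φ : Pr Z} {l : ℂ} (hl : cq ξ * φ.e = l • φ.e) (σ : ℂ ≃+* ℂ) :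
    cq ξ * (M.act σ φ).e = σ l • (M.act σ φ).e := by
  have h1 := congrArg (fun Y : Matrix _ _ ℂ => Y.map (σ : ℂ →+* ℂ)) hl
  simp only [Matrix.map_mul] at h1
  rw [cq_map, map_smul_aut'] at h1
  exact h1

theorem scal_bar {φ : Pr Z} {l : ℂ} (hl : cq ξ * φ.e = l • φ.e) :
    cq ξ * (M.bar φ).e = (starRingEnd ℂ) l • (M.bar φ).e :=
  scal_eqv M hz (M.act_conj φ) (scal_act M hl conjEq)

variable {d : ℚ} (hξ : ξ * ξ = -(d • (1 : MQ g))) {k : ℂ} (hk : k * k = -d) (hk0 : k ≠ 0)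
  (hkc : (starRingEnd ℂ) k = -k)

include hξ hk hk0 in
omit hk0 in
theorem scal_cases (φ : Pr Z) : cq ξ * φ.e = k • φ.e ∨ cq ξ * φ.e = (-k) • φ.e := by
  obtain ⟨l, hl⟩ := M.exists_scalar hz φ
  have h1 : (l * l) • φ.e = (k * k) • φ.e := by
    rw [hk, neg_smul, mul_smul, ← hl, ← Matrix.mul_smul, ← hl, ← mul_assoc, xi_sq hξ,
      neg_mul, Matrix.smul_mul, one_mul]
  have h2 := scal_uniq h1
  rcases mul_self_eq_mul_self_iff.1 h2 with h3 | h3
  · left
    rw [hl, h3]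
  · right
    rw [hl, h3]

include hξ hk hk0 in
theorem not_clP {φ : Pr Z} : ¬ clP M ξ k (cl φ) ↔ cq ξ * φ.e = (-k) • φ.e := by
  rw [clP_cl M hz]
  constructor
  · intro h
    exact (scal_cases M hz hξ hk φ).resolve_left h
  · intro h h1
    rw [h] at h1
    have h2 := scal_uniq h1
    apply hk0
    have h3 : (2 : ℂ) * k = 0 := by linear_combination -h2
    exact (mul_eq_zero.1 h3).resolve_left two_ne_zero

include hξ hk hk0 hkc in
/-- **The signature.** -/
theorem theSig {D : Subalgebra ℚ (MQ g)} (hD : Dv Z D) {n' : ℕ} (φ₀ : Pr Z)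
    (hn' : mu φ₀ + mu (M.bar φ₀) = n') [Fintype (Cl Z)] :
    @Sig (RingAut ℂ) (Cl Z) _ (clAct M) _ (clBar M) (clP M ξ k) (clMu M) n' := by
  let _ := clAct M
  refine ⟨?_, ?_, ?_, ?_, ?_, ?_, ?_⟩
  · intro x
    obtain ⟨φ, rfl⟩ := cl_surj x
    rw [bar_cl, bar_cl, M.bar_bar]
  · intro σ x
    obtain ⟨φ, rfl⟩ := cl_surj x
    change cl (M.bar (M.act σ φ)) = cl (M.act σ (M.bar φ))
    rw [M.bar_act]
  · intro x
    obtain ⟨φ, rfl⟩ := cl_surj x
    rw [bar_cl, mu_cl, mu_cl, ← hn']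
    exact rank_const M hD φ φ₀
  · intro x
    obtain ⟨φ, rfl⟩ := cl_surj x
    rw [not_clP M hz hξ hk hk0, bar_cl, clP_cl M hz]
    constructor
    · intro h
      have h1 := scal_bar M hz h
      rw [M.bar_bar, hkc] at h1
      exact h1
    · intro h
      have h1 := scal_bar M hz h
      rw [map_neg, hkc, neg_neg] at h1
      exact h1
  · intro σ x y h
    obtain ⟨φ, rfl⟩ := cl_surj x
    obtain ⟨ψ, rfl⟩ := cl_surj y
    have key : ∃ l : ℂ, cq ξ * φ.e = l • φ.e ∧ cq ξ * ψ.e = l • ψ.e := by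
      by_cases h1 : clP M ξ k (cl φ)
      · exact ⟨k, (clP_cl M hz).1 h1, (clP_cl M hz).1 (h.1 h1)⟩
      · exact ⟨-k, (not_clP M hz hξ hk hk0).1 h1,
          (not_clP M hz hξ hk hk0).1 (fun h2 => h1 (h.2 h2))⟩
    obtain ⟨l, h1, h2⟩ := key
    have h3 := scal_act M h1 σ
    have h4 := scal_act M h2 σ
    change clP M ξ k (cl (M.act σ φ)) ↔ clP M ξ k (cl (M.act σ ψ))
    rw [clP_cl M hz, clP_cl M hz, h3, h4]
    constructor
    · intro h5
      rw [scal_uniq h5]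
    · intro h5
      rw [scal_uniq h5]
  · intro x y
    obtain ⟨φ, rfl⟩ := cl_surj x
    obtain ⟨ψ, rfl⟩ := cl_surj y
    obtain ⟨σ, hσ⟩ := transitive M hD φ ψ
    exact ⟨σ, cl_eq.2 hσ⟩
  · by_cases h1 : clP M ξ k (cl φ₀)
    · exact ⟨_, h1⟩
    · refine ⟨cl (M.bar φ₀), ?_⟩
      rw [clP_cl M hz]
      have h2 := scal_bar M hz ((not_clP M hz hξ hk hk0).1 h1)
      rw [map_neg, hkc, neg_neg] at h2
      exact h2

end

variable {I : Type} [Fintype I] {ε : I → Pr Z} (F : Pol.Fam ε)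
  {D : Subalgebra ℚ (MQ g)} (hD : Dv Z D)
include F hD

/-- Sums over the family and sums over the classes. -/
theorem sum_cls [Fintype (Cl Z)] (φ₀ : Pr Z) (f : Cl Z → ℂ) :
    ∑ i, f (cl (ε i)) = (cnt ε φ₀ : ℂ) * ∑ x, f x := by
  classical
  rw [← Finset.sum_fiberwise (s := Finset.univ) (fun i => cl (ε i)) (fun i => f (cl (ε i))),
    Finset.mul_sum]
  refine Finset.sum_congr rfl fun x _ => ?_
  obtain ⟨φ, rfl⟩ := cl_surj x
  have h1 : ∀ i ∈ Finset.univ.filter (fun i => cl (ε i) = cl φ), f (cl (ε i)) = f (cl φ) := by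
    intro i hi
    rw [(Finset.mem_filter.1 hi).2]
  rw [Finset.sum_congr rfl h1, Finset.sum_const, nsmul_eq_mul, cnt_const M F hD φ₀ φ]
  congr 2
  unfold cnt
  congr 1
  ext i
  simp only [Finset.mem_filter, Finset.mem_univ, true_and, cl_eq]

/-- The dimension. -/
theorem dim_cls [Fintype (Cl Z)] (φ₀ : Pr Z) {n' : ℕ} (hn' : mu φ₀ + mu (M.bar φ₀) = n') :
    2 * g = cnt ε φ₀ * (n' * Fintype.card (Cl Z)) := by
  have h1 : (2 : ℂ) * g = trace (1 : Matrix (Fin g ⊕ Fin g) (Fin g ⊕ Fin g) ℂ) := by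
    rw [trace_one, Fintype.card_sum, Fintype.card_fin]
    push_cast
    ring
  have h2 : trace (1 : Matrix (Fin g ⊕ Fin g) (Fin g ⊕ Fin g) ℂ) =
      ∑ i, (fun _ : Cl Z => (n' : ℂ)) (cl (ε i)) := by
    rw [← F.sum, trace_sum]
    refine Finset.sum_congr rfl fun i _ => ?_
    rw [M.trace_e, rank_const M hD (ε i) φ₀, hn']
  rw [h2, sum_cls M F hD φ₀ (fun _ => (n' : ℂ)), Finset.sum_const, Finset.card_univ,
    nsmul_eq_mul] at h1
  have h3 : ((2 * g : ℕ) : ℂ) = ((cnt ε φ₀ * (n' * Fintype.card (Cl Z)) : ℕ) : ℂ) := by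
    push_cast
    rw [h1]
    ring
  exact_mod_cast h3

/-- The dimension of the eigenspace in the tangent space. -/
theorem TE_cls {ξ : MQ g} (hξD : ξ ∈ D) (hz : M.Zt (cq ξ)) {d : ℚ}
    (hξ : ξ * ξ = -(d • (1 : MQ g))) {k : ℂ} (hk : k * k = -d) (hk0 : k ≠ 0)
    [Fintype (Cl Z)] [DecidablePred (clP M ξ k)] (φ₀ : Pr Z) :
    finrank ℂ (TE Z ξ k) = cnt ε φ₀ * ∑ x : {x // clP M ξ k x}, clMu M x := by
  obtain ⟨N0, hN0⟩ := hD.endo ξ hξD
  have h1 := dim_TE hξ hk hk0 M hN0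
  have h2 : trace ((2 : ℂ)⁻¹ • ((1 + DZ Z) * pj ξ k)) =
      ∑ i, (fun x : Cl Z => if clP M ξ k x then (clMu M x : ℂ) else 0) (cl (ε i)) := by
    calc trace ((2 : ℂ)⁻¹ • ((1 + DZ Z) * pj ξ k)) =
        trace ((2 : ℂ)⁻¹ • ((1 + DZ Z) * pj ξ k) * ∑ i, (ε i).e) := by rw [F.sum, mul_one]
    _ = ∑ i, trace ((2 : ℂ)⁻¹ • ((1 + DZ Z) * pj ξ k) * (ε i).e) := by
      rw [Finset.mul_sum, trace_sum]
    _ = _ := by
      refine Finset.sum_congr rfl fun i _ => ?_
      change _ = if clP M ξ k (cl (ε i)) then (clMu M (cl (ε i)) : ℂ) else 0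
      by_cases h3 : clP M ξ k (cl (ε i))
      · rw [if_pos h3, mu_cl, ← M.trace_pr, Pool.Agent.Y4.K.pr, Matrix.smul_mul, mul_assoc,
          pj_of hξ hk hk0 ((clP_cl M hz).1 h3)]
      · rw [if_neg h3, Matrix.smul_mul, mul_assoc,
          pj_of_neg hξ hk hk0 ((not_clP M hz hξ hk hk0).1 h3), mul_zero, smul_zero, trace_zero]
  rw [h2, sum_cls M F hD φ₀ (fun x : Cl Z => if clP M ξ k x then (clMu M x : ℂ) else 0),
    ← Finset.sum_filter] at h1
  have h3 : ∑ x ∈ Finset.univ.filter (clP M ξ k), (clMu M x : ℂ) =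
      ∑ x : {x // clP M ξ k x}, (clMu M x : ℂ) :=
    Finset.sum_subtype _ (fun x => by simp) _
  rw [h3] at h1
  exact_mod_cast h1

/-- The left ideal of a primitive idempotent. -/
def Lid (Z : Matrix (Fin g) (Fin g) ℂ) (φ : Pr Z) :
    Submodule ℂ (Matrix (Fin g ⊕ Fin g) (Fin g ⊕ Fin g) ℂ) where
  carrier := {x | Ct Z x ∧ x * φ.e = x}
  zero_mem' := ⟨fun X _ => by rw [zero_mul, mul_zero], zero_mul _⟩
  add_mem' := fun {a b} ha hb => ⟨fun X hX => by rw [add_mul, mul_add, ha.1 X hX, hb.1 X hX], by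
    rw [add_mul, ha.2, hb.2]⟩
  smul_mem' := fun r a ha => ⟨fun X hX => by
    rw [Matrix.smul_mul, Matrix.mul_smul, ha.1 X hX], by rw [Matrix.smul_mul, ha.2]⟩

omit hD in
/-- The dimension of the left ideal. -/
theorem Lid_le (φ : Pr Z) : finrank ℂ (Lid Z φ) ≤ cnt ε φ := by
  classical
  let S : Type := {i : I // Eqv (ε i) φ}
  choose β α hβα using fun i : S => i.2
  have hα : ∀ i : S, Iso φ (ε i.1) (α i) (β i) := fun i => (hβα i).symm
  have h1 : Lid Z φ ≤ Submodule.span ℂ (Set.range α) := by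
    rintro x ⟨hx, hxφ⟩
    have h2 : x = ∑ i, (ε i).e * x := by rw [← Finset.sum_mul, F.sum, one_mul]
    rw [h2]
    refine Submodule.sum_mem _ fun i _ => ?_
    by_cases hi : Eqv (ε i) φ
    · obtain ⟨lam, hlam⟩ := φ.prim (β ⟨i, hi⟩ * x) (InCm.mul (hα ⟨i, hi⟩).cb hx)
      have h3 : (ε i).e * x = lam • α ⟨i, hi⟩ := by
        calc (ε i).e * x = α ⟨i, hi⟩ * β ⟨i, hi⟩ * x := by rw [(hα ⟨i, hi⟩).ab]
        _ = α ⟨i, hi⟩ * (φ.e * (β ⟨i, hi⟩ * x) * φ.e) := by
          rw [mul_assoc _ (β ⟨i, hi⟩ * x), mul_assoc _ x φ.e, hxφ, ← mul_assoc φ.e,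
            (hα ⟨i, hi⟩).lb, mul_assoc]
        _ = lam • α ⟨i, hi⟩ := by rw [hlam, Matrix.mul_smul, (hα ⟨i, hi⟩).ra]
      rw [h3]
      exact Submodule.smul_mem _ _ (Submodule.subset_span ⟨_, rfl⟩)
    · have h3 : (ε i).e * x = 0 := by
        rw [← hxφ, ← mul_assoc]
        exact M.eq_zero_of_not (fun h => hi h.symm) hx
      rw [h3]
      exact Submodule.zero_mem _
  refine (Submodule.finrank_mono h1).trans ?_
  refine (finrank_range_le_card α).trans ?_
  rw [Fintype.card_subtype]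
  exact le_of_eq rfl

/-- The degree is at most the number of the members of a class. -/
theorem degree_le_cnt [Nontrivial D] {n : ℕ}
    (hn : finrank ℚ D = n ^ 2 * finrank ℚ (Subalgebra.center ℚ D)) (φ : Pr Z) :
    n ≤ cnt ε φ := by
  refine le_trans ?_ (Lid_le M F φ)
  have hCt : ∀ x : D, Ct Z (cq x.1) := by
    intro x
    obtain ⟨N, hN⟩ := hD.endo x.1 x.2
    exact M.Ct_of_endo hN
  have : Nontrivial (Lid Z φ) := by
    refine ⟨⟨0, ⟨φ.e, φ.mem, φ.idem⟩, fun h => φ.ne ?_⟩⟩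
    exact (congrArg Subtype.val h).symm
  let ρ : D →+* Module.End ℂ (Lid Z φ) :=
    { toFun := fun x =>
        { toFun := fun y => ⟨cq x.1 * y.1, InCm.mul (hCt x) y.2.1, by rw [mul_assoc, y.2.2]⟩
          map_add' := fun y z => Subtype.ext (mul_add _ _ _)
          map_smul' := fun r y => Subtype.ext (Matrix.mul_smul _ _ _) }
      map_one' := by
        ext1 y
        apply Subtype.ext
        change cq (1 : MQ g) * y.1 = y.1
        rw [cq_one, one_mul]
      map_zero' := by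
        ext1 y
        apply Subtype.ext
        change cq (0 : MQ g) * y.1 = 0
        rw [cq_zero, zero_mul]
      map_mul' := fun a b => by
        ext1 y
        apply Subtype.ext
        change cq (a.1 * b.1) * y.1 = cq a.1 * (cq b.1 * y.1)
        rw [cq_mul, mul_assoc]
      map_add' := fun a b => by
        ext1 y
        apply Subtype.ext
        change cq (a.1 + b.1) * y.1 = cq a.1 * y.1 + cq b.1 * y.1
        rw [cq_add, add_mul] }
  refine degree_le' (D := D) ?_ ρ hn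
  intro x hx
  obtain ⟨y, hy⟩ := hD.div x.1 x.2 (fun h => hx (Subtype.ext h))
  have hy' : y * x.1 = 1 := mul_eq_one_comm.1 hy
  have hinj : Function.Injective (LinearMap.mulLeft ℚ x) := by
    rw [injective_iff_map_eq_zero]
    intro z hz
    have h1 : x.1 * z.1 = 0 := congrArg Subtype.val hz
    apply Subtype.ext
    calc z.1 = y * x.1 * z.1 := by rw [hy', one_mul]
    _ = 0 := by rw [mul_assoc, h1, mul_zero]
  obtain ⟨z, hz⟩ := LinearMap.surjective_of_injective hinj 1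
  exact ⟨z, hz⟩

end

/-- Arithmetic. -/
theorem good_of {s t' n t N' N : ℕ} (h1 : s * t' = n * t) (h2 : s * N' = n * N) (h3 : n ≤ s)
    (hn : 0 < n) (hg : Good t N) : Good t' N' := by
  have key : s = n := by
    have hs : 0 < s := by omega
    obtain ⟨h, a, b, hh, hab, hsa, hnb⟩ := Nat.exists_coprime' (m := s) (n := n)
      (Nat.gcd_pos_of_pos_left n hs)
    have e1 : a * t' = b * t := by
      apply Nat.eq_of_mul_eq_mul_right hh
      calc a * t' * h = a * h * t' := by ring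
      _ = b * h * t := by rw [← hsa, ← hnb, h1]
      _ = b * t * h := by ring
    have e2 : a * N' = b * N := by
      apply Nat.eq_of_mul_eq_mul_right hh
      calc a * N' * h = a * h * N' := by ring
      _ = b * h * N := by rw [← hsa, ← hnb, h2]
      _ = b * N * h := by ring
    have d1 : a ∣ t := hab.dvd_of_dvd_mul_left ⟨t', e1.symm⟩
    have d2 : a ∣ N := hab.dvd_of_dvd_mul_left ⟨N', e2.symm⟩
    have ha : a = 1 := Nat.eq_one_of_dvd_coprimes hg.coprime d1 d2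
    rw [ha, one_mul] at hsa
    have : s ∣ n := ⟨b, by rw [hnb, hsa, mul_comm]⟩
    have := Nat.le_of_dvd hn this
    omega
  subst key
  rw [Nat.eq_of_mul_eq_mul_left hn h1, Nat.eq_of_mul_eq_mul_left hn h2]
  exact hg

section

variable (M : Pol Z)
include M

/-- **The conditions of the criterion.** -/
theorem conds {D : Subalgebra ℚ (MQ g)} (hD : Dv Z D) {ξ : MQ g} (hξD : ξ ∈ D)
    (hξc : ∀ x ∈ D, ξ * x = x * ξ) {d : ℚ} (hξ : ξ * ξ = -(d • (1 : MQ g))) {k : ℂ}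
    (hk : k * k = -d) (hk0 : k ≠ 0) (hkc : (starRingEnd ℂ) k = -k) {n N t : ℕ}
    (hn : finrank ℚ D = n ^ 2 * finrank ℚ (Subalgebra.center ℚ D)) (hgN : g = n * N)
    (ht : finrank ℂ (TE Z ξ k) = n * t) (hgood : Good t N) : M.Cop ∧ M.Sep ∧ M.Nd := by
  classical
  have hN3 := hgood.1
  by_cases hg : 0 < g
  swap
  · -- there are no primitive idempotents
    have hg0 : g = 0 := by omega
    subst hg0
    have hno : ∀ φ : Pr Z, False := fun φ => φ.ne (by
      ext i j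
      rcases i with i | i <;> exact i.elim0)
    refine ⟨fun φ => (hno φ).elim, fun φ => (hno φ).elim, ?_⟩
    intro I hI ε F lam _ _ _ φ
    exact (hno φ).elim
  have hn0 : 0 < n := by
    rcases Nat.eq_zero_or_pos n with h | h
    · rw [h, zero_mul] at hgN
      omega
    · exact h
  have hcen : M.Zt (cq ξ) := by
    refine central M hD hg hξD hξc hξ hk hk0 ?_
    rw [ht, hgN]
    intro h1
    have h2 : n * (2 * t) = n * N := by rw [← h1]; ring
    exact hgood.two (Nat.eq_of_mul_eq_mul_left hn0 h2)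
  obtain ⟨I, hI, ε, f1, f2, f3⟩ := M.exists_family
  have F : Pol.Fam ε := ⟨f1, f2, f3⟩
  have hIne : Nonempty I := by
    by_contra hI0
    rw [not_nonempty_iff] at hI0
    rw [Finset.univ_eq_empty, Finset.sum_empty] at f3
    have h1 : trace (1 : Matrix (Fin g ⊕ Fin g) (Fin g ⊕ Fin g) ℂ) = 0 := by
      rw [← f3, trace_zero]
    rw [trace_one, Fintype.card_sum, Fintype.card_fin] at h1
    have h2 : g + g = 0 := by exact_mod_cast h1
    omega
  obtain ⟨i0⟩ := hIne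
  obtain ⟨φ₀, hφ₀⟩ : ∃ φ₀, φ₀ = ε i0 := ⟨_, rfl⟩
  obtain ⟨n', hn'⟩ : ∃ n', mu φ₀ + mu (M.bar φ₀) = n' := ⟨_, rfl⟩
  have : Finite (Cl Z) := cl_finite M
  let _ : Fintype (Cl Z) := Fintype.ofFinite _
  let _ := clAct M
  have S := theSig M hcen hξ hk hk0 hkc hD φ₀ hn'
  have hnt : Nontrivial D := by
    refine ⟨⟨0, 1, fun h => ?_⟩⟩
    have h1 : (0 : MQ g) = 1 := congrArg Subtype.val h
    have h2 := congrFun (congrFun h1 (Sum.inl ⟨0, hg⟩)) (Sum.inl ⟨0, hg⟩)
    rw [Matrix.zero_apply, Matrix.one_apply_eq] at h2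
    exact zero_ne_one h2
  have hcard : Fintype.card (Cl Z) = 2 * Fintype.card {x // clP M ξ k x} := by
    have e1 : {x // clP M ξ k x} ≃ {x // ¬ clP M ξ k x} :=
      { toFun := fun x => ⟨clBar M x.1, fun h => (S.Pc x.1).1 h x.2⟩
        invFun := fun x => ⟨clBar M x.1, (S.Pc x.1).2 x.2⟩
        left_inv := fun x => Subtype.ext (S.cc x.1)
        right_inv := fun x => Subtype.ext (S.cc x.1) }
    rw [← Fintype.card_congr (Equiv.sumCompl (clP M ξ k)), Fintype.card_sum,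
      ← Fintype.card_congr e1, two_mul]
  have hdim := dim_cls M F hD φ₀ hn'
  rw [hcard] at hdim
  have g2 : cnt ε φ₀ * (n' * Fintype.card {x // clP M ξ k x}) = n * N := by
    rw [← hgN]
    have h1 : 2 * g = 2 * (cnt ε φ₀ * (n' * Fintype.card {x // clP M ξ k x})) := by
      rw [hdim]
      ring
    omega
  have g1 : cnt ε φ₀ * ∑ x : {x // clP M ξ k x}, clMu M x = n * t := by
    rw [← TE_cls M F hD hξD hcen hξ hk hk0 φ₀, ht]
  have hG : Good (∑ x : {x // clP M ξ k x}, clMu M x)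
      (n' * Fintype.card {x // clP M ξ k x}) :=
    good_of g1 g2 (degree_le_cnt M F hD hn φ₀) hn0 hgood
  refine ⟨?_, ?_, ?_⟩
  · intro φ
    obtain ⟨σ, hσ⟩ := cop S hG (cl φ)
    exact ⟨σ, hσ⟩
  · intro φ ψ h1 h2 h3 h4 h5
    exfalso
    refine sep S hG (x := cl φ) (y := cl ψ) (fun h => h1 (cl_eq.1 h)) (fun h => h2 (cl_eq.1 h))
      ?_ ?_
    · rw [← hn', ← rank_const M hD φ φ₀]
      exact h4
    · intro σ
      exact h5 σ
  · intro J hJ η Fη lam hl1 hl2 hl3 φ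
    let lam' : Cl Z → ℂ := fun x => Quotient.liftOn' (s₁ := prSetoid Z) x lam hl1
    have h0 : lam' = 0 := by
      refine nd S hG lam' ?_ ?_
      · intro x
        obtain ⟨ψ, rfl⟩ := cl_surj x
        exact hl2 ψ
      · intro σ
        have h1 := sum_cls M Fη hD φ₀ (fun x => ((clMu M (σ • x) : ℂ) -
          clMu M (clBar M (σ • x))) * lam' x)
        have h2 := hl3 σ
        have h3 : ∑ i, (fun x => ((clMu M (σ • x) : ℂ) -
          clMu M (clBar M (σ • x))) * lam' x) (cl (η i)) = 0 := by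
          rw [← h2]
          exact Finset.sum_congr rfl fun i _ => rfl
        rw [h3] at h1
        exact (mul_eq_zero.1 h1.symm).resolve_left
          (Nat.cast_ne_zero.2 (cnt_pos M Fη _).ne')
    exact congrFun h0 (cl φ)

end

end Pool.Agent.H943.KS
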