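import Mathlib
import Pool.Agent.H943.KS.Geo3

/-!
# The Hodge classes
-/

set_option autoImplicit false
set_option linter.unusedSectionVars false

namespace Pool.Agent.H943.KS

open Matrix Module Pool.Agent.H204R3.CM Pool.Agent.H194R3.CM Pool.Agent.W437.HC
  Pool.Agent.W437.HD Pool.Agent.W437.HQ Pool.Agent.W548.Odd Pool.Agent.TH125 Pool.Agent.Y4
  Pool.Agent.Y4.G Pool.Agent.Y4.K

open Pool.Agent.Y4.H (exists_prims LZ Ct map_smul_aut' D_mem_LZ Dσ_mem_LZ)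

variable {g : ℕ} {Z : Matrix (Fin g) (Fin g) ℂ}

theorem Dv_of_dim {D : Subalgebra ℚ (MQ g)} (hE : ∀ x ∈ D, ∃ N, IsEndo Z x N)
    (hdiv : ∀ x ∈ D, x ≠ 0 → ∃ y, x * y = 1) (hdim : finrank ℚ D = 2 * g) : Dv Z D :=
  ⟨hE, hdiv, fun _ _ hX h0 => unit_of_dim hdiv hdim hX h0⟩

/-- The dimensions of the two eigenspaces. -/
theorem finrank_add (M : Pol Z) {ξ : MQ g} {d : ℚ} (hξ : ξ * ξ = -(d • (1 : MQ g))) {k : ℂ}
    (hk : k * k = -d) (hk0 : k ≠ 0) {N0 : Matrix (Fin g) (Fin g) ℂ} (hN0 : IsEndo Z ξ N0) :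
    finrank ℂ (TE Z ξ k) + finrank ℂ (TE Z ξ (-k)) = g := by
  have h1 := dim_TE hξ hk hk0 M hN0
  have h2 := dim_TE hξ (k := -k) (by rw [neg_mul_neg, hk]) (neg_ne_zero.2 hk0) M hN0
  have h3 : pj ξ k + pj ξ (-k) = 1 := by
    unfold pj
    rw [← smul_add, inv_neg, neg_smul, add_add_add_comm, add_neg_cancel, add_zero, ← two_smul ℂ,
      smul_smul, inv_mul_cancel₀ two_ne_zero, one_smul]
  have h4 : ((finrank ℂ (TE Z ξ k) + finrank ℂ (TE Z ξ (-k)) : ℕ) : ℂ) = g := by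
    rw [Nat.cast_add, h1, h2, ← trace_add, ← smul_add, ← mul_add, h3, mul_one, trace_smul,
      trace_add, trace_D M, add_zero, trace_one, Fintype.card_sum, Fintype.card_fin, smul_eq_mul]
    push_cast
    ring
  exact_mod_cast h4

/-- There are no primitive idempotents if the dimension is zero. -/
theorem conds_zero (M : Pol Z) (hg0 : g = 0) : M.Cop ∧ M.Sep ∧ M.Nd := by
  subst hg0
  have hno : ∀ φ : Pr Z, False := fun φ => φ.ne (by
    ext i j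
    rcases i with i | i <;> exact i.elim0)
  refine ⟨fun φ => (hno φ).elim, fun φ => (hno φ).elim, ?_⟩
  intro I hI ε F lam _ _ _ φ
  exact (hno φ).elim

/-- **All Hodge classes on all powers are divisorial.** -/
theorem hodge_quad (hsymm : Zᵀ = Z) (hpos : (Z.map Complex.im).PosDef)
    {D : Subalgebra ℚ (MQ g)} (hD : Dv Z D) {ξ : MQ g} (hξD : ξ ∈ D)
    (hξc : ∀ x ∈ D, ξ * x = x * ξ) {d : ℚ} (hd : 0 < d) (hξ : ξ * ξ = -(d • (1 : MQ g)))
    {n N t : ℕ} (hn : finrank ℚ D = n ^ 2 * finrank ℚ (Subalgebra.center ℚ D)) (hgN : g = n * N)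
    (ht : finrank ℂ (TE Z ξ (Complex.I * Real.sqrt d)) = n * t) (hN3 : 3 ≤ N)
    (hcop : Nat.Coprime t N) (hgood : t ≤ 2 ∨ N ≤ t + 2 ∨ IsPrimePow N)
    {k m : ℕ} (f : (Fin k → Fin g ⊕ Fin g → ℚ) [⋀^Fin m × Fin 2]→ₗ[ℚ] ℚ)
    (hf : IsHodge (perPow Z k) f) : f ∈ divisorial (perPow Z k) m := by
  have M : Pol Z := ⟨hsymm, hpos⟩
  obtain ⟨κ, hκ⟩ : ∃ κ : ℂ, κ = Complex.I * Real.sqrt d := ⟨_, rfl⟩
  have hd' : (0 : ℝ) < d := by exact_mod_cast hd
  have hκ2 : κ * κ = -d := by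
    have h1 : ((Real.sqrt d : ℝ) : ℂ) * ((Real.sqrt d : ℝ) : ℂ) = ((d : ℝ) : ℂ) := by
      rw [← Complex.ofReal_mul, Real.mul_self_sqrt hd'.le]
    rw [hκ]
    calc Complex.I * ((Real.sqrt d : ℝ) : ℂ) * (Complex.I * ((Real.sqrt d : ℝ) : ℂ)) =
        (Complex.I * Complex.I) * (((Real.sqrt d : ℝ) : ℂ) * ((Real.sqrt d : ℝ) : ℂ)) := by ring
    _ = -d := by
      rw [h1, Complex.I_mul_I]
      push_cast
      ring
  have hκ0 : κ ≠ 0 := by
    intro h0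
    rw [h0, mul_zero] at hκ2
    have h1 : (d : ℂ) = 0 := by linear_combination hκ2
    have h2 : d = 0 := by exact_mod_cast h1
    exact hd.ne' h2
  have hκc : (starRingEnd ℂ) κ = -κ := by
    rw [hκ, map_mul, Complex.conj_I, Complex.conj_ofReal, neg_mul]
  rw [← hκ] at ht
  obtain ⟨N0, hN0⟩ := hD.endo ξ hξD
  have hsum := finrank_add M hξ hκ2 hκ0 hN0
  rw [ht] at hsum
  rcases Nat.eq_zero_or_pos n with h0 | hn0
  · obtain ⟨c1, c2, c3⟩ := conds_zero M (by rw [hgN, h0, zero_mul])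
    exact M.divisorial_all c1 c2 c3 f hf
  have htN : t ≤ N := by
    have h1 : n * t ≤ n * N := by omega
    exact Nat.le_of_mul_le_mul_left h1 hn0
  have ht' : finrank ℂ (TE Z ξ (-κ)) = n * (N - t) := by
    rw [Nat.mul_sub]
    omega
  have ht0 : t ≠ 0 := by
    rintro rfl
    rw [Nat.coprime_zero_left] at hcop
    omega
  have hcop' : Nat.Coprime (N - t) N := by
    have h1 : Nat.Coprime (N - t) t := by
      refine Nat.Coprime.symm ?_
      exact (Nat.coprime_sub_self_right htN).2 hcop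
    have h2 := (Nat.coprime_add_self_right (m := N - t) (n := t)).2 h1
    rwa [Nat.add_sub_cancel' htN] at h2
  have key : ∀ {κ : ℂ} {t : ℕ}, κ * κ = -d → κ ≠ 0 → (starRingEnd ℂ) κ = -κ →
      finrank ℂ (TE Z ξ κ) = n * t → Good t N → f ∈ divisorial (perPow Z k) m := by
    intro κ t h1 h2 h3 h4 h5
    obtain ⟨c1, c2, c3⟩ := conds M hD hξD hξc hξ h1 h2 h3 hn hgN h4 h5
    exact M.divisorial_all c1 c2 c3 f hf
  have hsmall : ∀ {t : ℕ}, t ≠ 0 → t ≤ 2 → Nat.Coprime t N → Good t N := by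
    intro t h1 h2 h3
    refine ⟨hN3, ?_⟩
    have h4 : t = 1 ∨ t = 2 := by omega
    rcases h4 with rfl | rfl
    · exact Or.inl rfl
    · exact Or.inr (Or.inl ⟨rfl, (Nat.Prime.coprime_iff_not_dvd Nat.prime_two).1 h3⟩)
  rcases hgood with h1 | h1 | h1
  · exact key hκ2 hκ0 hκc ht (hsmall ht0 h1 hcop)
  · refine key (κ := -κ) (t := N - t) (by rw [neg_mul_neg, hκ2]) (neg_ne_zero.2 hκ0)
      (by rw [map_neg, hκc]) ht' (hsmall ?_ (by omega) hcop')
    intro h2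
    rw [h2, Nat.coprime_zero_left] at hcop'
    omega
  · refine key hκ2 hκ0 hκc ht ⟨hN3, Or.inr (Or.inr ?_)⟩
    obtain ⟨p, c, hp, hc, rfl⟩ := (isPrimePow_nat_iff N).1 h1
    refine ⟨p, c, hp, rfl, fun h2 => ?_⟩
    have h3 := Nat.Coprime.coprime_dvd_right (dvd_pow_self p hc.ne') hcop
    have h4 := h3.symm.eq_one_of_dvd h2
    exact hp.one_lt.ne' h4

end Pool.Agent.H943.KS
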